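import Pool.Agent.Lib.MP_04143b_an.Mg.G006

/-! # The block of five legs: the modified route -/

open Set

namespace Pool.Agent.Lib.MP_04143b_an

open Classical in
/-- the part of the first notch seen from the right -/
noncomputable def R1 (x : ℕ → ℝ) (t0 t2 e1 g1 : ℕ) : List ℕ :=
  (iv e1 g1).filter (fun t => min (x t0) (x t2) - 2 ≤ x t)

open Classical in
/-- the part of the first notch seen from the left -/
noncomputable def L1 (x : ℕ → ℝ) (t1 e1 g1 : ℕ) : List ℕ :=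
  (iv e1 g1).filter (fun t => x t ≤ x t1 + 2)

open Classical in
/-- the part of the second notch seen from the right -/
noncomputable def R2 (x : ℕ → ℝ) (t2 e2 g2 : ℕ) : List ℕ :=
  (iv e2 g2).filter (fun t => x t2 - 2 ≤ x t)

open Classical in
/-- the part of the second notch seen from the left -/
noncomputable def L2 (x : ℕ → ℝ) (t1 t3 e2 g2 : ℕ) : List ℕ :=
  (iv e2 g2).filter (fun t => x t ≤ max (x t1) (x t3) + 2)

/-- first part of the detour -/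
noncomputable def Q1 (x : ℕ → ℝ) (t0 t1 t2 t3 e1 g1 e2 g2 : ℕ) : List ℕ :=
  R1 x t0 t2 e1 g1 ++ iv g1 e2 ++ R2 x t2 e2 g2 ++ [e2] ++ L2 x t1 t3 e2 g2

/-- second part of the detour -/
noncomputable def Q2 (x : ℕ → ℝ) (t1 e1 g1 e2 : ℕ) : List ℕ :=
  [e2] ++ (iv g1 e2).reverse ++ L1 x t1 e1 g1

/-- third part of the detour -/
def Q3 (g1 e2 g2 : ℕ) : List ℕ := [g1] ++ iv g1 e2 ++ [g2]

/-- The modified route between `s0 + 1` and `s5`. -/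
noncomputable def rt (x : ℕ → ℝ) (s0 t0 t1 t2 t3 s5 e1 g1 e2 g2 : ℕ) : List ℕ :=
  iv (s0 + 1) (e1 - 1) ++ (Q1 x t0 t1 t2 t3 e1 g1 e2 g2 ++ Q2 x t1 e1 g1 e2 ++ Q3 g1 e2 g2) ++
    iv (g2 + 1) s5

section

variable {x y : ℕ → ℝ} {η : ℝ} {s0 t0 t1 t2 t3 s5 e1 g1 e2 g2 : ℕ}

theorem mem_R1 {t : ℕ} : t ∈ R1 x t0 t2 e1 g1 ↔
    (e1 ≤ t ∧ t ≤ g1) ∧ min (x t0) (x t2) - 2 ≤ x t := by
  unfold R1; rw [List.mem_filter, mem_iv, decide_eq_true_iff]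

theorem mem_L1 {t : ℕ} : t ∈ L1 x t1 e1 g1 ↔ (e1 ≤ t ∧ t ≤ g1) ∧ x t ≤ x t1 + 2 := by
  unfold L1; rw [List.mem_filter, mem_iv, decide_eq_true_iff]

theorem mem_R2 {t : ℕ} : t ∈ R2 x t2 e2 g2 ↔ (e2 ≤ t ∧ t ≤ g2) ∧ x t2 - 2 ≤ x t := by
  unfold R2; rw [List.mem_filter, mem_iv, decide_eq_true_iff]

theorem mem_L2 {t : ℕ} : t ∈ L2 x t1 t3 e2 g2 ↔
    (e2 ≤ t ∧ t ≤ g2) ∧ x t ≤ max (x t1) (x t3) + 2 := by
  unfold L2; rw [List.mem_filter, mem_iv, decide_eq_true_iff]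

end

end Pool.Agent.Lib.MP_04143b_an
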