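import Mathlib

/-! # Real inequalities for the cost of a leg -/

namespace Pool.Agent.Lib.MP_04143b_an

private theorem CostB_le1 (a b : ℝ) : a ≤ √(a ^ 2 + b ^ 2) :=
  (le_abs_self a).trans (Real.abs_le_sqrt (by nlinarith [sq_nonneg b]))

private theorem CostB_le2 (a b : ℝ) : b ≤ √(a ^ 2 + b ^ 2) :=
  (le_abs_self b).trans (Real.abs_le_sqrt (by nlinarith [sq_nonneg a]))

/-- at least one bad notch -/
theorem ineq_bad {η w X v0 d1 v1 d2 v2 : ℝ} (hη : 0 < η) (hd1 : 0 ≤ d1) (hd2 : 0 ≤ d2)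
    (hw1 : 2 + d1 ≤ w) (hw2 : 2 + d2 ≤ w) (hX : w - d1 - d2 - 2 * η ≤ X) (hX0 : 0 ≤ X)
    (hv : 2 ≤ v1 ∨ 2 ≤ v2) :
    3 - 2 * η ≤ √(X ^ 2 + v0 ^ 2) + √(d1 ^ 2 + (v1 / 2) ^ 2) + √(d2 ^ 2 + (v2 / 2) ^ 2) := by
  have h0 := CostB_le1 X v0
  have h1 := CostB_le1 d1 (v1 / 2)
  have h1' := CostB_le2 d1 (v1 / 2)
  have h2 := CostB_le1 d2 (v2 / 2)
  have h2' := CostB_le2 d2 (v2 / 2)
  rcases hv with hv | hv <;> linarith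

/-- any leg -/
theorem ineq_any {η w X v0 d1 v1 d2 v2 : ℝ} (hd1 : 0 ≤ d1) (hd2 : 0 ≤ d2)
    (hw1 : 2 + d1 ≤ w) (hX : w - d1 - d2 - 2 * η ≤ X) (hX0 : 0 ≤ X) :
    2 - 2 * η ≤ √(X ^ 2 + v0 ^ 2) + √(d1 ^ 2 + (v1 / 2) ^ 2) + √(d2 ^ 2 + (v2 / 2) ^ 2) := by
  have h0 := CostB_le1 X v0
  have h1 := CostB_le1 d1 (v1 / 2)
  have h2 := CostB_le1 d2 (v2 / 2)
  linarith

theorem ineq_conv (d a b : ℝ) :
    √(d ^ 2 + ((a + b) / 2) ^ 2) ≤ (√(d ^ 2 + a ^ 2) + √(d ^ 2 + b ^ 2)) / 2 := by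
  have ha : 0 ≤ √(d ^ 2 + a ^ 2) := Real.sqrt_nonneg _
  have hb : 0 ≤ √(d ^ 2 + b ^ 2) := Real.sqrt_nonneg _
  have ha2 : √(d ^ 2 + a ^ 2) ^ 2 = d ^ 2 + a ^ 2 := Real.sq_sqrt (by positivity)
  have hb2 : √(d ^ 2 + b ^ 2) ^ 2 = d ^ 2 + b ^ 2 := Real.sq_sqrt (by positivity)
  have hc : d ^ 2 + a * b ≤ √(d ^ 2 + a ^ 2) * √(d ^ 2 + b ^ 2) := by
    rw [← Real.sqrt_mul (by positivity)]
    apply Real.le_sqrt_of_sq_le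
    nlinarith [sq_nonneg (d * (a - b))]
  apply Real.sqrt_le_iff.2
  constructor
  · positivity
  · nlinarith

theorem ineq_sub {d v : ℝ} (hd : 0 ≤ d) (hv : 0 ≤ v) : √(d ^ 2 + v ^ 2) - d ≤ v := by
  have : √(d ^ 2 + v ^ 2) ≤ d + v := by
    apply Real.sqrt_le_iff.2
    constructor
    · positivity
    · nlinarith [mul_nonneg hd hv]
  linarith

/-- `√(a² + v²) - v/2 ≥ (√3/2) a ≥ 43/50 a` -/
theorem ineq_half {a v : ℝ} (ha : 0 ≤ a) (hv : 0 ≤ v) : 43 / 50 * a ≤ √(a ^ 2 + v ^ 2) - v / 2 := by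
  have : 43 / 50 * a + v / 2 ≤ √(a ^ 2 + v ^ 2) := by
    apply Real.le_sqrt_of_sq_le
    nlinarith [sq_nonneg (a - 1.7 * v), sq_nonneg (a - 1.65 * v), sq_nonneg v, sq_nonneg a]
  linarith

end Pool.Agent.Lib.MP_04143b_an
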