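import Mathlib

/-! # A real inequality for the cost of a leg -/

namespace Pool.Agent.Lib.MP_04143b_an

private theorem CostT_lin (c s a b : ℝ) (hcs : c ^ 2 + s ^ 2 ≤ 1) :
    c * a + s * b ≤ √(a ^ 2 + b ^ 2) := by
  refine (le_abs_self _).trans (Real.abs_le_sqrt ?_)
  nlinarith [sq_nonneg (c * b - s * a), mul_nonneg (sub_nonneg.2 hcs) (sq_nonneg a),
    mul_nonneg (sub_nonneg.2 hcs) (sq_nonneg b)]

/-- a leg with a big rise and a big drop -/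
theorem ineq_tw {η w X v0 d1 v1 d2 v2 : ℝ} (hη : 0 < η) (hη' : η ≤ 1 / 20) (hd1 : 0 ≤ d1)
    (hd2 : 0 ≤ d2) (hw1 : 2 + d1 ≤ w) (hw2 : 2 + d2 ≤ w) (hX : w - d1 - d2 - 2 * η ≤ X)
    (hX0 : 0 ≤ X) (h0 : 0 ≤ v0) (h1 : 0 ≤ v1) (h2 : 0 ≤ v2) (hv : 4 ≤ v0 + v1 + v2) :
    3 - 2 * η ≤ √(X ^ 2 + v0 ^ 2) + √(d1 ^ 2 + (v1 / 2) ^ 2) + √(d2 ^ 2 + (v2 / 2) ^ 2) := by
  have a0 := CostT_lin (19 / 20) (3 / 10) X v0 (by norm_num)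
  have a1 := CostT_lin (4 / 5) (3 / 5) d1 (v1 / 2) (by norm_num)
  have a2 := CostT_lin (4 / 5) (3 / 5) d2 (v2 / 2) (by norm_num)
  linarith

end Pool.Agent.Lib.MP_04143b_an
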