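import Mathlib

/-!
# Best approximation of short plane curves by piecewise monotone curves: definitions
-/

open Set

namespace Pool.Agent.Lib.MP_04143b_an

/-- `f` has at most `n` sections of monotonicity on `[0,1]`. -/
def HasSections (n : ℕ) (f : ℝ → ℝ) : Prop :=
  ∃ k ≤ n, ∃ t : ℕ → ℝ, t 0 = 0 ∧ t k = 1 ∧ (∀ i < k, t i < t (i + 1)) ∧
    ∀ i < k, MonotoneOn f (Icc (t i) (t (i + 1))) ∨ AntitoneOn f (Icc (t i) (t (i + 1)))

/-- The set `M_n` of continuous functions on `[0,1]` with at most `n` sections of monotonicity. -/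
def Mn (n : ℕ) : Set (ℝ → ℝ) := {f | ContinuousOn f (Icc 0 1) ∧ HasSections n f}

/-- The set `M_n^2` of the plane curves `{(φ(t), ψ(t)) : t ∈ [0,1]}` with `φ, ψ ∈ M_n`. -/
def MnSq (n : ℕ) : Set (Set (ℝ × ℝ)) :=
  {G | ∃ φ ∈ Mn n, ∃ ψ ∈ Mn n, G = (fun t => (φ t, ψ t)) '' Icc (0 : ℝ) 1}

/-- The Euclidean length of the curve `f : [0,1] → ℝ²`. -/
noncomputable def length (f : ℝ → ℝ × ℝ) : ENNReal :=
  eVariationOn (fun t => WithLp.toLp 2 (f t)) (Icc (0 : ℝ) 1)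

/-- The set `Γ_1` of the plane curves of length at most `1`, regarded as point sets. -/
def Gamma1 : Set (Set (ℝ × ℝ)) :=
  {F | ∃ f : ℝ → ℝ × ℝ, ContinuousOn f (Icc 0 1) ∧ length f ≤ 1 ∧ F = f '' Icc 0 1}

/-- The best approximation `E(M_n^2; F)` in the Hausdorff distance of the box metric (which is the
metric of `ℝ × ℝ`). -/
noncomputable def EF (n : ℕ) (F : Set (ℝ × ℝ)) : ℝ :=
  sInf {r | ∃ G ∈ MnSq n, r = Metric.hausdorffDist F G}

/-- `E(M_n^2; Γ_1)`. -/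
noncomputable def EE (n : ℕ) : ℝ := sSup {r | ∃ F ∈ Gamma1, r = EF n F}

/-- The constant `c_6`. -/
noncomputable def c6 : ℝ := Filter.limsup (fun n : ℕ => (n : ℝ) * EE n) Filter.atTop

/-! ### Combinatorial notions -/

/-- The list `a, a + 1, ..., b` (empty for `b < a`). -/
def iv (a b : ℕ) : List ℕ := List.range' a (b + 1 - a)

/-- A zigzag: consecutive values differ by more than `2`, in alternating directions; `true` means
that the first value is a high one. -/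
def Zig (f : ℕ → ℝ) : Bool → List ℕ → Prop
  | _, [] => True
  | _, [_] => True
  | true, a :: b :: l => 2 < f a - f b ∧ Zig f false (b :: l)
  | false, a :: b :: l => 2 < f b - f a ∧ Zig f true (b :: l)

/-- Each zigzag in the list `l` has at most `k` elements. -/
def ZLe (f : ℕ → ℝ) (l : List ℕ) (k : ℕ) : Prop :=
  ∀ (s : Bool) (c : List ℕ), c.Sublist l → Zig f s c → c.length ≤ k

/-- Along `l` the value never drops by more than `2`. -/
def NoDrop (f : ℕ → ℝ) (l : List ℕ) : Prop := l.Pairwise (fun a b => f a - f b ≤ 2)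

/-- Along `l` the value never rises by more than `2`. -/
def NoRise (f : ℕ → ℝ) (l : List ℕ) : Prop := l.Pairwise (fun a b => f b - f a ≤ 2)

/-- A list of lists which alternately have no big drop and no big rise. -/
def Alts (f : ℕ → ℝ) : Bool → List (List ℕ) → Prop
  | _, [] => True
  | true, S :: L => NoDrop f S ∧ Alts f false L
  | false, S :: L => NoRise f S ∧ Alts f true L

/-- Consecutive elements of the list are at distance at most `2` in both coordinates. -/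
def Adj (x y : ℕ → ℝ) (l : List ℕ) : Prop :=
  l.IsChain (fun a b => |x a - x b| ≤ 2 ∧ |y a - y b| ≤ 2)

/-- The sequence `X 0, ..., X M` consists of at most `k` monotone pieces. -/
def Sec (X : ℕ → ℝ) (M k : ℕ) : Prop :=
  ∃ b : ℕ → ℕ, b 0 = 0 ∧ b k = M ∧ Monotone b ∧ ∀ l < k,
    MonotoneOn X (Icc (b l) (b (l + 1))) ∨ AntitoneOn X (Icc (b l) (b (l + 1)))

/-- variation of a sequence between `a` and `b` -/
noncomputable def xv (x : ℕ → ℝ) (a b : ℕ) : ℝ := ∑ t ∈ Finset.Ico a b, |x (t + 1) - x t|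

/-- Euclidean length of a chain of points between `a` and `b` -/
noncomputable def ln (x y : ℕ → ℝ) (a b : ℕ) : ℝ :=
  ∑ t ∈ Finset.Ico a b, √((x (t + 1) - x t) ^ 2 + (y (t + 1) - y t) ^ 2)

/-- `f` or `-f` -/
def sg (s : Bool) (f : ℕ → ℝ) : ℕ → ℝ := fun t => if s then f t else - f t

/-- alternating directions -/
def dir (s : Bool) : ℕ → Bool
  | 0 => s
  | j + 1 => !(dir s j)

/-- An upward leg of `f` from `a` to `b`. -/
structure Leg (f : ℕ → ℝ) (a b : ℕ) : Prop where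
  lt : a < b
  gap : 2 < f b - f a
  low : ∀ t, a ≤ t → t ≤ b → f a ≤ f t
  high : ∀ t, a ≤ t → t ≤ b → f t ≤ f b
  nodrop : ∀ s t, a ≤ s → s ≤ t → t ≤ b → f s - f t ≤ 2

/-- The tips `τ 0 < ... < τ m` of `f` on `0, ..., N`. -/
structure Tips (f : ℕ → ℝ) (N m : ℕ) (s : Bool) (τ : ℕ → ℕ) : Prop where
  pos : 0 < m
  last : τ m ≤ N
  leg : ∀ j < m, Leg (sg (dir s j) f) (τ j) (τ (j + 1))
  head : ∀ t ≤ τ 0, sg s f (τ 0) ≤ sg s f t ∧ sg s f t ≤ sg s f (τ 0) + 2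
  tail : ∀ t, τ m ≤ t → t ≤ N → sg (dir s (m - 1)) f t ≤ sg (dir s (m - 1)) f (τ m) ∧
    sg (dir s (m - 1)) f (τ m) - 2 ≤ sg (dir s (m - 1)) f t

/-- The notch `e, ..., g` of `F` at the minimum `c` between the maxima `a` and `b`. -/
structure Notch (F : ℕ → ℝ) (a c b e g : ℕ) : Prop where
  ae : a ≤ e
  ec : e < c
  cg : c < g
  gb : g ≤ b
  left : ∀ t, a ≤ t → t ≤ e → min (F a) (F b) - 2 ≤ F t
  right : ∀ t, g ≤ t → t ≤ b → min (F a) (F b) - 2 ≤ F t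
  le : F (e + 1) < min (F a) (F b) - 2
  ge : F (g - 1) < min (F a) (F b) - 2

/-- depth of the `i`-th tip -/
noncomputable def dep (x : ℕ → ℝ) (s : Bool) (τ : ℕ → ℕ) (i : ℕ) : ℝ :=
  min (sg (dir s i) x (τ (i - 1))) (sg (dir s i) x (τ (i + 1))) - 2 - sg (dir s i) x (τ i)

/-- All data of a chain of points with small steps. -/
structure Setup (x y : ℕ → ℝ) (N m : ℕ) (s : Bool) (τ e g : ℕ → ℕ) (η : ℝ) : Prop where
  tips : Tips x N m s τ
  pos : 0 < η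
  small : η ≤ 1 / 20
  stepx : ∀ t < N, |x (t + 1) - x t| ≤ η
  stepy : ∀ t < N, |y (t + 1) - y t| ≤ η
  notch : ∀ i, 1 ≤ i → i < m → Notch (sg (dir s i) x) (τ (i - 1)) (τ i) (τ (i + 1)) (e i) (g i)

/-- The leg from `τ j` to `τ (j + 1)` is mergeable. -/
structure Mg (x y : ℕ → ℝ) (s : Bool) (τ e g : ℕ → ℕ) (η : ℝ) (j : ℕ) : Prop where
  d1 : dep x s τ j ≤ 2 - η
  d2 : dep x s τ (j + 1) ≤ 2 - η
  sep : g j ≤ e (j + 1)
  osc1 : ∀ a b, e j ≤ a → a ≤ g j → e j ≤ b → b ≤ g j → y a - y b ≤ 2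
  osc2 : ∀ a b, e (j + 1) ≤ a → a ≤ g (j + 1) → e (j + 1) ≤ b → b ≤ g (j + 1) → y a - y b ≤ 2
  tw : (∀ a b, e j ≤ a → a ≤ b → b ≤ g (j + 1) → y a - y b ≤ 2) ∨
    (∀ a b, e j ≤ a → a ≤ b → b ≤ g (j + 1) → y b - y a ≤ 2)

/-- The data of a block of five legs whose middle leg (from `t1` to `t2`) is mergeable. -/
structure BD (x y : ℕ → ℝ) (η : ℝ) (s0 t0 t1 t2 t3 s5 e1 g1 e2 g2 : ℕ) : Prop where
  pos : 0 < η
  small : η ≤ 1 / 20
  stepx : ∀ t, s0 ≤ t → t < s5 → |x (t + 1) - x t| ≤ η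
  stepy : ∀ t, s0 ≤ t → t < s5 → |y (t + 1) - y t| ≤ η
  l0 : Leg x s0 t0
  l1 : Leg (fun t => - x t) t0 t1
  l2 : Leg x t1 t2
  l3 : Leg (fun t => - x t) t2 t3
  l4 : Leg x t3 s5
  n1 : Notch x t0 t1 t2 e1 g1
  n2 : Notch (fun t => - x t) t1 t2 t3 e2 g2
  d1 : min (x t0) (x t2) - 2 - x t1 ≤ 2 - η
  d2 : x t2 - (max (x t1) (x t3) + 2) ≤ 2 - η
  sep : g1 ≤ e2
  osc1 : ∀ a b, e1 ≤ a → a ≤ g1 → e1 ≤ b → b ≤ g1 → y a - y b ≤ 2
  osc2 : ∀ a b, e2 ≤ a → a ≤ g2 → e2 ≤ b → b ≤ g2 → y a - y b ≤ 2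
  tw : (∀ a b, e1 ≤ a → a ≤ b → b ≤ g2 → y a - y b ≤ 2) ∨
    (∀ a b, e1 ≤ a → a ≤ b → b ≤ g2 → y b - y a ≤ 2)

end Pool.Agent.Lib.MP_04143b_an
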