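import Mathlib

/-! # Lattice cells: the number of cells -/

namespace Pool.Agent.Lib.MP_04143b_an

private def latCBlk (a b : ℤ) : Finset (ℤ × ℤ) := {(a, b), (a, b + 1), (a + 1, b), (a + 1, b + 1)}

private theorem latC_mem {a b x y : ℤ} :
    (x, y) ∈ latCBlk a b ↔ (x = a ∨ x = a + 1) ∧ (y = b ∨ y = b + 1) := by
  unfold latCBlk
  simp only [Finset.mem_insert, Finset.mem_singleton, Prod.mk.injEq]
  tauto

private theorem latC_card_succ (P : ℕ → Prop) [DecidablePred P] (N : ℕ) :
    ((Finset.range (N + 1)).filter P).card =
      ((Finset.range N).filter P).card + (if P N then 1 else 0) := by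
  rw [Finset.range_add_one, Finset.filter_insert]
  split_ifs with h
  · rw [Finset.card_insert_of_notMem]
    simp
  · simp

private theorem latC_step {a b a' b' : ℤ} (ha : |a' - a| ≤ 1) (hb : |b' - b| ≤ 1)
    (U : Finset (ℤ × ℤ)) (hU : latCBlk a b ⊆ U) :
    (U ∪ latCBlk a' b').card ≤ U.card + 2 * ((if a ≠ a' then 1 else 0) + (if b ≠ b' then 1 else 0)) := by
  rw [abs_le] at ha hb
  -- the new cells
  have key : ∃ W : Finset (ℤ × ℤ), latCBlk a' b' ⊆ latCBlk a b ∪ W ∧
      W.card ≤ 2 * ((if a ≠ a' then 1 else 0) + (if b ≠ b' then 1 else 0)) := by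
    by_cases h1 : a = a'
    · by_cases h2 : b = b'
      · refine ⟨∅, ?_, by simp⟩
        rw [h1, h2]; simp
      · have : b' = b + 1 ∨ b' = b - 1 := by omega
        rcases this with rfl | rfl
        · refine ⟨{(a, b + 2), (a + 1, b + 2)}, ?_, ?_⟩
          · rintro ⟨x, y⟩ hxy
            rw [latC_mem] at hxy
            rw [Finset.mem_union, latC_mem]
            simp only [Finset.mem_insert, Finset.mem_singleton, Prod.mk.injEq]
            omega
          · refine Finset.card_le_two.trans ?_
            simp [h1]
        · refine ⟨{(a, b - 1), (a + 1, b - 1)}, ?_, ?_⟩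
          · rintro ⟨x, y⟩ hxy
            rw [latC_mem] at hxy
            rw [Finset.mem_union, latC_mem]
            simp only [Finset.mem_insert, Finset.mem_singleton, Prod.mk.injEq]
            omega
          · refine Finset.card_le_two.trans ?_
            rw [if_pos h2]; omega
    · have : a' = a + 1 ∨ a' = a - 1 := by omega
      by_cases h2 : b = b'
      · rcases this with rfl | rfl
        · refine ⟨{(a + 2, b), (a + 2, b + 1)}, ?_, ?_⟩
          · rintro ⟨x, y⟩ hxy
            rw [latC_mem] at hxy
            rw [Finset.mem_union, latC_mem]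
            simp only [Finset.mem_insert, Finset.mem_singleton, Prod.mk.injEq]
            omega
          · refine Finset.card_le_two.trans ?_
            simp [h2]
        · refine ⟨{(a - 1, b), (a - 1, b + 1)}, ?_, ?_⟩
          · rintro ⟨x, y⟩ hxy
            rw [latC_mem] at hxy
            rw [Finset.mem_union, latC_mem]
            simp only [Finset.mem_insert, Finset.mem_singleton, Prod.mk.injEq]
            omega
          · refine Finset.card_le_two.trans ?_
            rw [if_pos h1]; omega
      · refine ⟨latCBlk a' b', Finset.subset_union_right, ?_⟩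
        refine (Finset.card_le_four).trans ?_
        rw [if_pos h1, if_pos h2]
  obtain ⟨W, hW, hWc⟩ := key
  calc (U ∪ latCBlk a' b').card ≤ (U ∪ W).card := by
        apply Finset.card_le_card
        intro x hx
        rw [Finset.mem_union] at hx ⊢
        rcases hx with hx | hx
        · exact Or.inl hx
        · have := hW hx
          rw [Finset.mem_union] at this
          rcases this with h | h
          · exact Or.inl (hU h)
          · exact Or.inr h
    _ ≤ U.card + W.card := Finset.card_union_le _ _
    _ ≤ _ := by omega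

private theorem latC_main (w v : ℕ → ℤ) (N : ℕ)
    (hw : ∀ t < N, |w (t + 1) - w t| ≤ 1) (hv : ∀ t < N, |v (t + 1) - v t| ≤ 1) :
    ((Finset.range (N + 1)).biUnion (fun t => latCBlk (w t) (v t))).card ≤
      4 + 2 * (((Finset.range N).filter (fun t => w t ≠ w (t + 1))).card +
        ((Finset.range N).filter (fun t => v t ≠ v (t + 1))).card) := by
  induction N with
  | zero =>
    simp only [Nat.reduceAdd, Finset.range_one, Finset.singleton_biUnion]
    exact Finset.card_le_four
  | succ N ih =>
    have ih := ih (fun t ht => hw t (by omega)) (fun t ht => hv t (by omega))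
    rw [Finset.range_add_one, Finset.biUnion_insert, Finset.union_comm]
    have h := latC_step (hw N (by omega)) (hv N (by omega))
      ((Finset.range (N + 1)).biUnion (fun t => latCBlk (w t) (v t)))
      (Finset.subset_biUnion_of_mem (fun t => latCBlk (w t) (v t)) (Finset.self_mem_range_succ N))
    rw [latC_card_succ (fun t => w t ≠ w (t + 1)), latC_card_succ (fun t => v t ≠ v (t + 1))]
    omega

theorem cells_card (c d w v : ℕ → ℤ) (N : ℕ)
    (hc : ∀ t ≤ N, c t = w t ∨ c t = w t + 1) (hd : ∀ t ≤ N, d t = v t ∨ d t = v t + 1)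
    (hw : ∀ t < N, |w (t + 1) - w t| ≤ 1) (hv : ∀ t < N, |v (t + 1) - v t| ≤ 1) :
    ((Finset.range (N + 1)).image (fun t => (c t, d t))).card ≤
      4 + 2 * (((Finset.range N).filter (fun t => w t ≠ w (t + 1))).card +
        ((Finset.range N).filter (fun t => v t ≠ v (t + 1))).card) := by
  refine le_trans (Finset.card_le_card ?_) (latC_main w v N hw hv)
  intro x hx
  rw [Finset.mem_image] at hx
  obtain ⟨t, ht, rfl⟩ := hx
  rw [Finset.mem_biUnion]
  refine ⟨t, ht, ?_⟩
  rw [Finset.mem_range] at ht
  rw [latC_mem]
  exact ⟨hc t (by omega), hd t (by omega)⟩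

end Pool.Agent.Lib.MP_04143b_an
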