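import Pool.Agent.Lib.MP_04143b_an.Mg.G006

/-! # Lattice cells: a short route through the cells -/

namespace Pool.Agent.Lib.MP_04143b_an

/-- A route through `0, ..., N` with moves inside the cells or by one step, which changes the cell
at most `2 (C - 1)` times, where `C` is the number of cells. -/
theorem cell_route {γ : Type} [DecidableEq γ] (κ : ℕ → γ) (N : ℕ) :
    ∃ G : List (List ℕ), (∀ t, t ∈ G.flatten ↔ t ≤ N) ∧
      G.flatten.IsChain (fun a b => κ a = κ b ∨ b = a + 1 ∨ a = b + 1) ∧
      (∀ l ∈ G, ∀ a ∈ l, ∀ b ∈ l, κ a = κ b) ∧
      G.length + 1 ≤ 2 * ((Finset.range (N + 1)).image κ).card := by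
  induction N with
  | zero =>
    refine ⟨[[0]], ?_, ?_, ?_, ?_⟩
    · intro t
      simp
    · simp
    · intro l hl a ha b hb
      simp only [List.mem_singleton] at hl
      subst hl
      simp only [List.mem_singleton] at ha hb
      rw [ha, hb]
    · simp
  | succ N ih =>
    obtain ⟨G, hG1, hG2, hG3, hG4⟩ := ih
    have himg : (Finset.range (N + 1 + 1)).image κ =
        insert (κ (N + 1)) ((Finset.range (N + 1)).image κ) := by
      rw [Finset.range_add_one (n := N + 1), Finset.image_insert]
    by_cases h : ∃ n' ≤ N, κ n' = κ (N + 1)
    · obtain ⟨n', hn', hκ⟩ := h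
      obtain ⟨l, hl, hnl⟩ := List.mem_flatten.1 ((hG1 n').2 hn')
      obtain ⟨G1, G2, rfl⟩ := List.append_of_mem hl
      obtain ⟨l1, l2, rfl⟩ := List.append_of_mem hnl
      have hmem : κ (N + 1) ∈ (Finset.range (N + 1)).image κ :=
        Finset.mem_image.2 ⟨n', Finset.mem_range.2 (by omega), hκ⟩
      refine ⟨G1 ++ (l1 ++ n' :: (N + 1) :: n' :: l2) :: G2, ?_, ?_, ?_, ?_⟩
      · intro t
        have h1 := hG1 t
        simp only [List.flatten_append, List.flatten_cons, List.mem_append, List.mem_cons] at h1 ⊢
        constructor
        · intro h2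
          by_cases h3 : t = N + 1
          · omega
          · have h4 : t ≤ N := h1.1 (by tauto)
            omega
        · intro h2
          by_cases h3 : t = N + 1
          · tauto
          · have h4 := h1.2 (by omega)
            tauto
      · have h1 : (G1 ++ (l1 ++ n' :: l2) :: G2).flatten =
            (G1.flatten ++ l1) ++ n' :: (l2 ++ G2.flatten) := by simp
        have h2 : (G1 ++ (l1 ++ n' :: (N + 1) :: n' :: l2) :: G2).flatten =
            (G1.flatten ++ l1) ++ n' :: (N + 1) :: n' :: (l2 ++ G2.flatten) := by simp
        rw [h1, List.isChain_split] at hG2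
        rw [h2, List.isChain_split, List.isChain_cons_cons, List.isChain_cons_cons]
        exact ⟨hG2.1, Or.inl hκ, Or.inl hκ.symm, hG2.2⟩
      · intro l hl a ha b hb
        simp only [List.mem_append, List.mem_cons] at hl
        have hgr := hG3 (l1 ++ n' :: l2) (by simp)
        rcases hl with hl | hl | hl
        · exact hG3 l (by simp [hl]) a ha b hb
        · subst hl
          have hnn : n' ∈ l1 ++ n' :: l2 := by simp
          have key : ∀ c ∈ l1 ++ n' :: (N + 1) :: n' :: l2, κ c = κ n' := by
            intro c hc
            simp only [List.mem_append, List.mem_cons] at hc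
            by_cases h3 : c = N + 1
            · rw [h3, hκ]
            · exact hgr c (by simp only [List.mem_append, List.mem_cons]; tauto) n' hnn
          rw [key a ha, key b hb]
        · exact hG3 l (by simp [hl]) a ha b hb
      · rw [himg, Finset.insert_eq_self.2 hmem]
        simpa using hG4
    · push Not at h
      obtain ⟨l, hl, hnl⟩ := List.mem_flatten.1 ((hG1 N).2 le_rfl)
      obtain ⟨G1, G2, rfl⟩ := List.append_of_mem hl
      obtain ⟨l1, l2, rfl⟩ := List.append_of_mem hnl
      have hmem : κ (N + 1) ∉ (Finset.range (N + 1)).image κ := by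
        intro h1
        obtain ⟨n', h2, h3⟩ := Finset.mem_image.1 h1
        exact h n' (by have := Finset.mem_range.1 h2; omega) h3
      refine ⟨G1 ++ (l1 ++ [N]) :: [N + 1] :: (N :: l2) :: G2, ?_, ?_, ?_, ?_⟩
      · intro t
        have h1 := hG1 t
        simp only [List.flatten_append, List.flatten_cons, List.mem_append, List.mem_cons,
          List.not_mem_nil, or_false] at h1 ⊢
        constructor
        · rintro (h2 | (h2 | h2) | h2 | (h2 | h2) | h2)
          · exact (h1.1 (Or.inl h2)).trans (Nat.le_succ _)
          · exact (h1.1 (Or.inr (Or.inl (Or.inl h2)))).trans (Nat.le_succ _)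
          · omega
          · omega
          · omega
          · exact (h1.1 (Or.inr (Or.inl (Or.inr (Or.inr h2))))).trans (Nat.le_succ _)
          · exact (h1.1 (Or.inr (Or.inr h2))).trans (Nat.le_succ _)
        · intro h2
          by_cases h3 : t = N + 1
          · exact Or.inr (Or.inr (Or.inl h3))
          · rcases h1.2 (by omega) with h4 | (h4 | h4 | h4) | h4
            · exact Or.inl h4
            · exact Or.inr (Or.inl (Or.inl h4))
            · exact Or.inr (Or.inl (Or.inr h4))
            · exact Or.inr (Or.inr (Or.inr (Or.inl (Or.inr h4))))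
            · exact Or.inr (Or.inr (Or.inr (Or.inr h4)))
      · have h1 : (G1 ++ (l1 ++ N :: l2) :: G2).flatten =
            (G1.flatten ++ l1) ++ N :: (l2 ++ G2.flatten) := by simp
        have h2 : (G1 ++ (l1 ++ [N]) :: [N + 1] :: (N :: l2) :: G2).flatten =
            (G1.flatten ++ l1) ++ N :: (N + 1) :: N :: (l2 ++ G2.flatten) := by simp
        rw [h1, List.isChain_split] at hG2
        rw [h2, List.isChain_split, List.isChain_cons_cons, List.isChain_cons_cons]
        exact ⟨hG2.1, Or.inr (Or.inl rfl), Or.inr (Or.inr rfl), hG2.2⟩
      · intro l hl a ha b hb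
        simp only [List.mem_append, List.mem_cons] at hl
        have hgr := hG3 (l1 ++ N :: l2) (by simp)
        rcases hl with hl | hl | hl | hl | hl
        · exact hG3 l (by simp [hl]) a ha b hb
        · subst hl
          refine hgr a ?_ b ?_
          · simp only [List.mem_append, List.mem_cons, List.not_mem_nil, or_false] at ha ⊢
            tauto
          · simp only [List.mem_append, List.mem_cons, List.not_mem_nil, or_false] at hb ⊢
            tauto
        · subst hl
          simp only [List.mem_singleton] at ha hb
          rw [ha, hb]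
        · subst hl
          refine hgr a ?_ b ?_
          · simp only [List.mem_append, List.mem_cons] at ha ⊢
            tauto
          · simp only [List.mem_append, List.mem_cons] at hb ⊢
            tauto
        · exact hG3 l (by simp [hl]) a ha b hb
      · rw [himg, Finset.card_insert_of_notMem hmem]
        simp only [List.length_append, List.length_cons] at hG4 ⊢
        omega

end Pool.Agent.Lib.MP_04143b_an
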