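import Pool.Agent.Lib.MP_04143b_an.Mg.G002

open Set

namespace Pool.Agent.Lib.MP_04143b_an

private theorem LinSec_aux {X : ℕ → ℝ} {M : ℕ} (hM : 1 ≤ M) {b : ℕ → ℕ} (hb0 : b 0 = 0)
    (hb : Monotone b) (k : ℕ) (hp : ∀ l < k,
      MonotoneOn X (Icc (b l) (b (l + 1))) ∨ AntitoneOn X (Icc (b l) (b (l + 1)))) :
    1 ≤ b k → b k ≤ M → ∃ k' ≤ k, ∃ t : ℕ → ℝ, t 0 = 0 ∧ t k' = (b k : ℝ) / M ∧
      (∀ i < k', t i < t (i + 1)) ∧ ∀ i < k', MonotoneOn (lin X M) (Icc (t i) (t (i + 1))) ∨
        AntitoneOn (lin X M) (Icc (t i) (t (i + 1))) := by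
  have hM0 : (0 : ℝ) < M := by exact_mod_cast hM
  induction k with
  | zero =>
    intro h1
    omega
  | succ k ih =>
    intro h1 h2
    have hle : b k ≤ b (k + 1) := hb (Nat.le_succ k)
    have hlast := hp k (Nat.lt_succ_self k)
    have hlast' : MonotoneOn (lin X M) (Icc ((b k : ℝ) / M) ((b (k + 1) : ℝ) / M)) ∨
        AntitoneOn (lin X M) (Icc ((b k : ℝ) / M) ((b (k + 1) : ℝ) / M)) := by
      rcases hlast with h | h
      · exact Or.inl (lin_monotoneOn hM h2 h)
      · exact Or.inr (lin_antitoneOn hM h2 h)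
    rcases Nat.eq_zero_or_pos (b k) with h0 | h0
    · refine ⟨1, by omega, fun i => if i = 0 then 0 else (b (k + 1) : ℝ) / M, by simp, by simp, ?_, ?_⟩
      · intro i hi
        have hi0 : i = 0 := by omega
        subst hi0
        simp only [if_true, Nat.zero_add, one_ne_zero, if_false]
        have : (0 : ℝ) < b (k + 1) := by exact_mod_cast h1
        positivity
      · intro i hi
        have hi0 : i = 0 := by omega
        subst hi0
        simp only [if_true, Nat.zero_add, one_ne_zero, if_false]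
        rw [h0] at hlast'
        simpa using hlast'
    · obtain ⟨k', hk', t, t0, tk, tlt, tp⟩ := ih (fun l hl => hp l (by omega)) h0 (hle.trans h2)
      rcases Nat.eq_or_lt_of_le hle with h3 | h3
      · exact ⟨k', by omega, t, t0, by rw [tk, h3], tlt, tp⟩
      · refine ⟨k' + 1, by omega, fun i => if i ≤ k' then t i else (b (k + 1) : ℝ) / M,
          by simp [t0], by simp, ?_, ?_⟩
        · intro i hi
          rcases Nat.eq_or_lt_of_le (Nat.lt_succ_iff.1 hi) with h4 | h4
          · subst h4
            simp only [le_refl, if_true, show ¬ (i + 1 ≤ i) by omega, if_false]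
            rw [tk]
            have h5 : (b k : ℝ) < b (k + 1) := by exact_mod_cast h3
            exact div_lt_div_of_pos_right h5 hM0
          · simp only [h4.le, if_true, show i + 1 ≤ k' by omega]
            exact tlt i h4
        · intro i hi
          rcases Nat.eq_or_lt_of_le (Nat.lt_succ_iff.1 hi) with h4 | h4
          · subst h4
            simp only [le_refl, if_true, show ¬ (i + 1 ≤ i) by omega, if_false]
            rw [tk]
            exact hlast'
          · simp only [h4.le, if_true, show i + 1 ≤ k' by omega]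
            exact tp i h4

theorem lin_hasSections {X : ℕ → ℝ} {M k : ℕ} (hM : 1 ≤ M) (h : Sec X M k) :
    HasSections k (lin X M) := by
  obtain ⟨b, hb0, hbk, hb, hp⟩ := h
  have hM0 : (M : ℝ) ≠ 0 := by
    have : (0 : ℝ) < M := by exact_mod_cast hM
    exact this.ne'
  obtain ⟨k', hk', t, t0, tk, tlt, tp⟩ := LinSec_aux hM hb0 hb k hp (by omega) (by omega)
  refine ⟨k', hk', t, t0, ?_, tlt, tp⟩
  rw [tk, hbk, div_self hM0]

end Pool.Agent.Lib.MP_04143b_an
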