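import Mathlib

/-! # Sorting times -/

open Set

namespace Pool.Agent.Lib.MP_04143b_an

/-- times at which the tips are visited, in increasing order -/
theorem sorted_times {m : ℕ} {t : ℕ → ℝ} (ht : ∀ k ≤ m, t k ∈ Icc (0 : ℝ) 1)
    (hne : ∀ k ≤ m, ∀ k' ≤ m, k ≠ k' → t k ≠ t k') :
    ∃ σ : ℕ → ℕ, (∀ i ≤ m, σ i ≤ m) ∧ ∀ i < m, t (σ i) < t (σ (i + 1)) := by
  classical
  have _ := ht
  set g : Fin (m + 1) → ℝ := fun i => t i with hg
  set s := Tuple.sort g with hs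
  have hm : Monotone (g ∘ s) := Tuple.monotone_sort g
  refine ⟨fun i => if h : i ≤ m then (s ⟨i, Nat.lt_succ_of_le h⟩ : ℕ) else 0, ?_, ?_⟩
  · intro i hi
    simp only [hi, dif_pos]
    exact Nat.le_of_lt_succ (s _).2
  · intro i hi
    have h1 : i ≤ m := hi.le
    have h2 : i + 1 ≤ m := hi
    simp only [h1, h2, dif_pos]
    have h3 := hm (show (⟨i, Nat.lt_succ_of_le h1⟩ : Fin (m + 1)) ≤ ⟨i + 1, Nat.lt_succ_of_le h2⟩ from by
      rw [Fin.le_def]; simp)
    refine lt_of_le_of_ne h3 ?_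
    apply hne _ (Nat.le_of_lt_succ (s _).2) _ (Nat.le_of_lt_succ (s _).2)
    intro h
    have h4 := s.injective (Fin.ext h)
    have h5 := congrArg Fin.val h4
    simp at h5

end Pool.Agent.Lib.MP_04143b_an
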