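import Pool.Agent.Lib.MP_04143b_an.Mg.G003
import Pool.Agent.Lib.MP_04143b_an.LowSort

/-! # Curves near the comb -/

open Set

namespace Pool.Agent.Lib.MP_04143b_an

/-- distance between a half-integer multiple and an integer multiple -/
private theorem comb_far_half {l : ℝ} (hl : 0 < l) (k0 j : ℕ) :
    l / 2 ≤ |((k0 : ℝ) + 1 / 2) * l - (j : ℝ) * l| := by
  rcases le_or_gt j k0 with h | h
  · have h' : (j : ℝ) ≤ k0 := by exact_mod_cast h
    rw [abs_of_nonneg (by nlinarith)]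
    nlinarith
  · have h' : (k0 : ℝ) + 1 ≤ j := by exact_mod_cast h
    rw [abs_of_nonpos (by nlinarith)]
    nlinarith

/-- A curve near the comb has many sections. -/
theorem comb_far {m n : ℕ} {F : Set (ℝ × ℝ)}
    (hF : ∀ k ≤ m, ((1 / (3 * m + 2 : ℝ)), (k : ℝ) / (3 * m + 2)) ∈ F)
    (hF' : ∀ p ∈ F, p.1 = 0 ∨ ∃ k : ℕ, p.2 = (k : ℝ) / (3 * m + 2))
    (hb : Bornology.IsBounded F)
    {G : Set (ℝ × ℝ)} (hG : G ∈ MnSq n) (h : Metric.hausdorffDist F G < 1 / (3 * m + 2) / 2) :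
    2 * m ≤ n := by
  classical
  obtain ⟨φ, ⟨hφc, hφs⟩, ψ, ⟨hψc, hψs⟩, rfl⟩ := hG
  set G : Set (ℝ × ℝ) := (fun t => (φ t, ψ t)) '' Icc (0 : ℝ) 1 with hGdef
  have hden : (0 : ℝ) < 3 * m + 2 := by positivity
  set l : ℝ := 1 / (3 * m + 2 : ℝ) with hl
  have hl0 : 0 < l := by positivity
  have hkl : ∀ k : ℕ, (k : ℝ) / (3 * m + 2) = k * l := by
    intro k
    rw [hl]; ring
  have hcomp : IsCompact G := isCompact_Icc.image_of_continuousOn (hφc.prodMk hψc)
  have hFne : F.Nonempty := ⟨_, hF 0 (Nat.zero_le _)⟩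
  have hGne : G.Nonempty := ⟨_, 0, left_mem_Icc.2 zero_le_one, rfl⟩
  have hfin : Metric.hausdorffEDist F G ≠ ⊤ :=
    Metric.hausdorffEDist_ne_top_of_nonempty_of_bounded hFne hGne hb hcomp.isBounded
  -- times of the tips
  have htimes : ∀ k : ℕ, ∃ t : ℝ, k ≤ m → t ∈ Icc (0 : ℝ) 1 ∧ |φ t - l| < l / 2 ∧ |ψ t - k * l| < l / 2 := by
    intro k
    by_cases hk : k ≤ m
    · obtain ⟨q, hq, hd⟩ := Metric.exists_dist_lt_of_hausdorffDist_lt (hF k hk) h hfin
      obtain ⟨t, ht, rfl⟩ := hq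
      refine ⟨t, fun _ => ⟨ht, ?_, ?_⟩⟩
      · have h1 := (le_max_left _ _).trans_lt (Prod.dist_eq.symm.trans_lt hd |>.trans_le le_rfl)
        rw [dist_comm, Real.dist_eq] at h1
        exact h1
      · have h1 := (le_max_right _ _).trans_lt (Prod.dist_eq.symm.trans_lt hd |>.trans_le le_rfl)
        rw [dist_comm, Real.dist_eq, hkl] at h1
        exact h1
    · exact ⟨0, fun h => absurd h hk⟩
  choose t ht using htimes
  have htne : ∀ k ≤ m, ∀ k' ≤ m, k ≠ k' → t k ≠ t k' := by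
    intro k hk k' hk' hne heq
    have a1 := (ht k hk).2.2
    have a2 := (ht k' hk').2.2
    rw [heq] at a1
    rw [abs_lt] at a1 a2
    rcases lt_or_gt_of_ne hne with hlt | hlt
    · have : (k : ℝ) + 1 ≤ k' := by exact_mod_cast hlt
      nlinarith
    · have : (k' : ℝ) + 1 ≤ k := by exact_mod_cast hlt
      nlinarith
  obtain ⟨σ, hσm, hσ⟩ := sorted_times (fun k hk => (ht k hk).1) htne
  set T : ℕ → ℝ := fun i => t (σ i) with hT
  have hTmem : ∀ i ≤ m, T i ∈ Icc (0 : ℝ) 1 := fun i hi => (ht _ (hσm i hi)).1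
  have hTφ : ∀ i ≤ m, l / 2 < φ (T i) := by
    intro i hi
    have := (abs_lt.1 (ht _ (hσm i hi)).2.1).1
    have h2 : φ (T i) = φ (t (σ i)) := rfl
    linarith
  -- intermediate times
  have hmid : ∀ i : ℕ, ∃ v : ℝ, i < m → T i < v ∧ v < T (i + 1) ∧ |φ v| < l / 2 := by
    intro i
    by_cases hi : i < m
    · have hlt : T i < T (i + 1) := hσ i hi
      have m1 := hTmem i hi.le
      have m2 := hTmem (i + 1) hi
      have b1 := (ht _ (hσm i hi.le)).2.2
      have b2 := (ht _ (hσm (i + 1) hi)).2.2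
      have hne : σ i ≠ σ (i + 1) := by
        intro heq
        have : T i = T (i + 1) := by simp only [hT, heq]
        linarith
      have hψI : ContinuousOn ψ (Icc (T i) (T (i + 1))) :=
        hψc.mono (Icc_subset_Icc m1.1 m2.2)
      have hlev : ∃ k0 : ℕ, ∃ v ∈ Icc (T i) (T (i + 1)), ψ v = ((k0 : ℝ) + 1 / 2) * l ∧
          ψ (T i) ≠ ((k0 : ℝ) + 1 / 2) * l ∧ ψ (T (i + 1)) ≠ ((k0 : ℝ) + 1 / 2) * l := by
        change |ψ (T i) - _| < _ at b1
        change |ψ (T (i + 1)) - _| < _ at b2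
        rw [abs_lt] at b1 b2
        rcases lt_or_gt_of_ne hne with hlt' | hlt'
        · have hc : ((σ i : ℕ) : ℝ) + 1 ≤ σ (i + 1) := by exact_mod_cast hlt'
          have c1 : ψ (T i) < ((σ i : ℝ) + 1 / 2) * l := by nlinarith
          have c2 : ((σ i : ℝ) + 1 / 2) * l < ψ (T (i + 1)) := by nlinarith
          obtain ⟨v, hv, hv'⟩ := intermediate_value_Icc hlt.le hψI ⟨c1.le, c2.le⟩
          exact ⟨σ i, v, hv, hv', c1.ne, c2.ne'⟩
        · have hc : ((σ (i + 1) : ℕ) : ℝ) + 1 ≤ σ i := by exact_mod_cast hlt'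
          have c1 : ψ (T (i + 1)) < ((σ (i + 1) : ℝ) + 1 / 2) * l := by nlinarith
          have c2 : ((σ (i + 1) : ℝ) + 1 / 2) * l < ψ (T i) := by nlinarith
          obtain ⟨v, hv, hv'⟩ := intermediate_value_Icc' hlt.le hψI ⟨c1.le, c2.le⟩
          exact ⟨σ (i + 1), v, hv, hv', c2.ne', c1.ne⟩
      obtain ⟨k0, v, hv, hv', hn1, hn2⟩ := hlev
      refine ⟨v, fun _ => ⟨?_, ?_, ?_⟩⟩
      · refine lt_of_le_of_ne hv.1 ?_
        rintro rfl
        exact hn1 hv'
      · refine lt_of_le_of_ne hv.2 ?_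
        rintro rfl
        exact hn2 hv'
      · have hvm : v ∈ Icc (0 : ℝ) 1 := ⟨m1.1.trans hv.1, hv.2.trans m2.2⟩
        obtain ⟨p, hp, hd⟩ := Metric.exists_dist_lt_of_hausdorffDist_lt'
          (show (φ v, ψ v) ∈ G from ⟨v, hvm, rfl⟩) h hfin
        have d1 := (le_max_left _ _).trans_lt (Prod.dist_eq.symm.trans_lt hd |>.trans_le le_rfl)
        have d2 := (le_max_right _ _).trans_lt (Prod.dist_eq.symm.trans_lt hd |>.trans_le le_rfl)
        rcases hF' p hp with hp1 | ⟨j, hj⟩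
        · rw [hp1, Real.dist_eq] at d1
          simpa using d1
        · exfalso
          rw [hj, Real.dist_eq, hkl] at d2
          have d3 : |p.2 - ψ v| < l / 2 := by
            rw [hj, hkl]
            exact d2
          rw [hj, hkl, abs_sub_comm, hv'] at d3
          exact absurd d3 (not_lt.2 (comb_far_half hl0 k0 j))
    · exact ⟨0, fun h => absurd h hi⟩
  choose v hv using hmid
  set u : ℕ → ℝ := fun j => if Even j then T (j / 2) else v (j / 2) with hu
  have hcase : ∀ j < 2 * m, (∃ i < m, j = 2 * i ∧ u j = T i ∧ u (j + 1) = v i) ∨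
      (∃ i < m, j = 2 * i + 1 ∧ u j = v i ∧ u (j + 1) = T (i + 1)) := by
    intro j hj
    rcases Nat.even_or_odd' j with ⟨i, hi | hi⟩
    · left
      refine ⟨i, by omega, hi, ?_, ?_⟩
      · have e1 : Even j := ⟨i, by omega⟩
        have e2 : j / 2 = i := by omega
        simp only [hu, e1, if_true, e2]
      · have e1 : ¬ Even (j + 1) := by
          rw [Nat.not_even_iff_odd]; exact ⟨i, by omega⟩
        have e2 : (j + 1) / 2 = i := by omega
        simp only [hu, e1, if_false, e2]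
    · right
      refine ⟨i, by omega, hi, ?_, ?_⟩
      · have e1 : ¬ Even j := by
          rw [Nat.not_even_iff_odd]; exact ⟨i, by omega⟩
        have e2 : j / 2 = i := by omega
        simp only [hu, e1, if_false, e2]
      · have e1 : Even (j + 1) := ⟨i + 1, by omega⟩
        have e2 : (j + 1) / 2 = i + 1 := by omega
        simp only [hu, e1, if_true, e2]
  refine zig_sections hφs (u := u) ?_ ?_ ?_ ?_ ?_
  · intro j hj
    rcases hcase j hj with ⟨i, hi, -, h1, h2⟩ | ⟨i, hi, -, h1, h2⟩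
    · rw [h1, h2]; exact (hv i hi).1
    · rw [h1, h2]; exact (hv i hi).2.1
  · have : u 0 = T 0 := by simp [hu]
    rw [this]
    exact (hTmem 0 (Nat.zero_le _)).1
  · have e1 : Even (2 * m) := ⟨m, by omega⟩
    have e2 : 2 * m / 2 = m := by omega
    have : u (2 * m) = T m := by simp only [hu, e1, if_true, e2]
    rw [this]
    exact (hTmem m le_rfl).2
  · intro j hj he
    rcases hcase j hj with ⟨i, hi, -, h1, h2⟩ | ⟨i, hi, h0, h1, h2⟩
    · rw [h1, h2]
      have a1 := hTφ i hi.le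
      have a2 := (abs_lt.1 (hv i hi).2.2).2
      linarith
    · exfalso
      obtain ⟨r, hr⟩ := he
      omega
  · intro j hj ho
    rcases hcase j hj with ⟨i, hi, h0, h1, h2⟩ | ⟨i, hi, -, h1, h2⟩
    · exfalso
      obtain ⟨r, hr⟩ := ho
      omega
    · rw [h1, h2]
      have a1 := hTφ (i + 1) hi
      have a2 := (abs_lt.1 (hv i hi).2.2).2
      linarith

end Pool.Agent.Lib.MP_04143b_an
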