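import Pool.Agent.Lib.MP_04143b_an.Mg.G016
import Pool.Agent.Lib.MP_04143b_an.Mg.G004

/-! # The constant -/

open Filter Topology

namespace Pool.Agent.Lib.MP_04143b_an

private theorem Main_lim1 : Tendsto (fun n : ℕ => (n : ℝ) * (1 / (3 * (n : ℝ) + 10))) atTop
    (𝓝 (1 / 3)) := by
  have h1 : Tendsto (fun n : ℕ => (3 : ℝ) + 10 * (1 / (n : ℝ))) atTop (𝓝 (3 + 10 * 0)) :=
    tendsto_const_nhds.add (tendsto_one_div_atTop_nhds_zero_nat.const_mul 10)
  rw [mul_zero, add_zero] at h1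
  have h2 := h1.inv₀ (by norm_num)
  rw [← one_div] at h2
  refine h2.congr' ?_
  filter_upwards [eventually_ge_atTop 1] with n hn
  have hn' : (1 : ℝ) ≤ n := by exact_mod_cast hn
  field_simp

private theorem Main_lim2 (η : ℝ) : Tendsto (fun n : ℕ => (n : ℝ) *
    ((1 + η) / ((3 - 2 * η) * ((n : ℝ) - 40)))) atTop (𝓝 ((1 + η) / (3 - 2 * η))) := by
  have h1 : Tendsto (fun n : ℕ => (1 : ℝ) - 40 * (1 / (n : ℝ))) atTop (𝓝 (1 - 40 * 0)) :=
    tendsto_const_nhds.sub (tendsto_one_div_atTop_nhds_zero_nat.const_mul 40)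
  rw [mul_zero, sub_zero] at h1
  have h2 := (h1.inv₀ (by norm_num)).const_mul ((1 + η) / (3 - 2 * η))
  rw [inv_one, mul_one] at h2
  refine h2.congr' ?_
  filter_upwards [eventually_ge_atTop 41] with n hn
  have hn' : (41 : ℝ) ≤ n := by exact_mod_cast hn
  have h3 : (n : ℝ) ≠ 0 := by linarith
  have h4 : (n : ℝ) - 40 ≠ 0 := by linarith
  have h5 : (1 : ℝ) - 40 * (1 / (n : ℝ)) = ((n : ℝ) - 40) / n := by
    field_simp
  rw [h5, inv_div]
  by_cases h6 : 3 - 2 * η = 0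
  · rw [h6]
    simp
  · field_simp

theorem tendsto_main : Tendsto (fun n : ℕ => (n : ℝ) * EE n) atTop (𝓝 (1 / 3)) := by
  rw [tendsto_order]
  constructor
  · intro a ha
    filter_upwards [(tendsto_order.1 Main_lim1).1 a ha, eventually_ge_atTop 1] with n hn1 hn2
    exact hn1.trans_le (mul_le_mul_of_nonneg_left (lower hn2) (Nat.cast_nonneg n))
  · intro a ha
    obtain ⟨η, hη0, hη1, hη2⟩ : ∃ η : ℝ, 0 < η ∧ η ≤ 1 / 20 ∧ (1 + η) / (3 - 2 * η) < a := by
      refine ⟨min (1 / 20) ((a - 1 / 3) / 2), lt_min (by norm_num) (by linarith),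
        min_le_left _ _, ?_⟩
      have h1 := min_le_left (1 / 20 : ℝ) ((a - 1 / 3) / 2)
      have h2 := min_le_right (1 / 20 : ℝ) ((a - 1 / 3) / 2)
      have h3 : 0 < min (1 / 20 : ℝ) ((a - 1 / 3) / 2) := lt_min (by norm_num) (by linarith)
      rw [div_lt_iff₀ (by linarith)]
      nlinarith
    filter_upwards [(tendsto_order.1 (Main_lim2 η)).2 a hη2, eventually_ge_atTop 42] with n hn1 hn2
    exact (mul_le_mul_of_nonneg_left (upper hη0 hη1 hn2) (Nat.cast_nonneg n)).trans_lt hn1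

theorem c6_eq : c6 = 1 / 3 := tendsto_main.limsup_eq

end Pool.Agent.Lib.MP_04143b_an
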