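import Mathlib

/-! # Separated subsets -/

open Set

namespace Pool.Agent.Lib.MP_04143b_an

theorem sep_subset (A : Finset ℕ) (q : ℕ) (h : 5 * q ≤ A.card + 4) :
    ∃ J ⊆ A, J.card = q ∧ ∀ j ∈ J, ∀ j' ∈ J, j < j' → j + 5 ≤ j' := by
  induction q generalizing A with
  | zero => exact ⟨∅, Finset.empty_subset _, rfl, fun j hj => absurd hj (Finset.notMem_empty j)⟩
  | succ q ih =>
    have hA : A.Nonempty := by
      rw [← Finset.card_pos]
      omega
    set a := A.min' hA with ha
    have haA : a ∈ A := A.min'_mem hA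
    have hmin : ∀ b ∈ A, a ≤ b := fun b hb => A.min'_le b hb
    set A' := A.filter (fun b => a + 5 ≤ b) with hA'
    have h1 : A ⊆ A' ∪ Finset.Ico a (a + 5) := by
      intro b hb
      rw [Finset.mem_union, Finset.mem_Ico, hA', Finset.mem_filter]
      by_cases h5 : a + 5 ≤ b
      · exact Or.inl ⟨hb, h5⟩
      · exact Or.inr ⟨hmin b hb, by omega⟩
    have h2 : A.card ≤ A'.card + 5 := by
      calc A.card ≤ (A' ∪ Finset.Ico a (a + 5)).card := Finset.card_le_card h1
        _ ≤ A'.card + (Finset.Ico a (a + 5)).card := Finset.card_union_le _ _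
        _ = A'.card + 5 := by rw [Nat.card_Ico]; omega
    obtain ⟨J, hJA, hJc, hJ⟩ := ih A' (by omega)
    have h3 : ∀ j ∈ J, a + 5 ≤ j := by
      intro j hj
      exact (Finset.mem_filter.1 (hJA hj)).2
    refine ⟨insert a J, ?_, ?_, ?_⟩
    · intro j hj
      rcases Finset.mem_insert.1 hj with rfl | hj
      · exact haA
      · exact (Finset.mem_filter.1 (hJA hj)).1
    · rw [Finset.card_insert_of_notMem, hJc]
      intro h0
      have := h3 a h0
      omega
    · intro j hj j' hj' hlt
      rcases Finset.mem_insert.1 hj with rfl | hj <;> rcases Finset.mem_insert.1 hj' with rfl | hj'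
      · omega
      · exact h3 j' hj'
      · have := h3 j hj
        omega
      · exact hJ j hj j' hj' hlt

end Pool.Agent.Lib.MP_04143b_an
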