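import Pool.Agent.Lib.MP_04143b_an.Mg.G007

namespace Pool.Agent.Lib.MP_04143b_an

private theorem tipsEx_start {f : ℕ → ℝ} {N : ℕ} (s : Bool)
    (h : ∀ a ≤ N, ∀ b ≤ N, sg s f a - sg s f b ≤ 2) {b : ℕ} (hb : b ≤ N)
    (hv : 2 < sg s f (N + 1) - sg s f b) : ∃ τ, Tips f (N + 1) 1 s τ := by
  obtain ⟨a, ha, hmin⟩ := Finset.exists_min_image (Finset.range (N + 1)) (sg s f)
    ⟨0, Finset.mem_range.2 (Nat.succ_pos N)⟩
  have haN : a ≤ N := by
    have := Finset.mem_range.1 ha
    omega
  have hmin' : ∀ t ≤ N, sg s f a ≤ sg s f t := fun t ht =>
    hmin t (Finset.mem_range.2 (by omega))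
  have hlow := hmin' b hb
  refine ⟨fun i => if i = 0 then a else N + 1, ?_, ?_, ?_, ?_, ?_⟩
  · exact Nat.one_pos
  · exact le_rfl
  · intro j hj
    obtain rfl : j = 0 := by omega
    change Leg (sg s f) a (N + 1)
    refine ⟨by omega, by linarith, ?_, ?_, ?_⟩
    · intro t _ ht
      rcases Nat.lt_or_ge N t with h1 | h1
      · obtain rfl : t = N + 1 := by omega
        linarith
      · exact hmin' t h1
    · intro t _ ht
      rcases Nat.lt_or_ge N t with h1 | h1
      · obtain rfl : t = N + 1 := by omega
        exact le_rfl
      · have := h t h1 a haN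
        linarith
    · intro r t _ hrt ht
      rcases Nat.lt_or_ge N t with h1 | h1
      · obtain rfl : t = N + 1 := by omega
        rcases Nat.lt_or_ge N r with h2 | h2
        · obtain rfl : r = N + 1 := by omega
          linarith
        · have := h r h2 a haN
          linarith
      · exact h r (by omega) t h1
  · intro t ht
    change sg s f a ≤ sg s f t ∧ sg s f t ≤ sg s f a + 2
    change t ≤ a at ht
    refine ⟨hmin' t (by omega), ?_⟩
    have := h t (by omega) a haN
    linarith
  · intro t ht ht'
    change N + 1 ≤ t at ht
    obtain rfl : t = N + 1 := by omega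
    change sg s f (N + 1) ≤ sg s f (N + 1) ∧ sg s f (N + 1) - 2 ≤ sg s f (N + 1)
    constructor <;> linarith

private theorem tipsEx_step {f : ℕ → ℝ} {N m : ℕ} {s : Bool} {τ : ℕ → ℕ}
    (T : Tips f N (m + 1) s τ) : ∃ m' τ', Tips f (N + 1) m' s τ' := by
  have hl := T.leg m (by omega)
  have hlast := T.last
  have htail : ∀ t, τ (m + 1) ≤ t → t ≤ N → sg (dir s m) f t ≤ sg (dir s m) f (τ (m + 1)) ∧
    sg (dir s m) f (τ (m + 1)) - 2 ≤ sg (dir s m) f t := T.tail
  set F := sg (dir s m) f with hF
  have hgap := hl.gap
  have hlt := hl.lt
  rcases lt_or_ge (F (τ (m + 1))) (F (N + 1)) with h1 | h1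
  · -- a new maximum
    refine ⟨m + 1, fun i => if i ≤ m then τ i else N + 1, Nat.succ_pos m, ?_, ?_, ?_, ?_⟩
    · change (if m + 1 ≤ m then τ (m + 1) else N + 1) ≤ N + 1
      rw [if_neg (by omega)]
    · intro j hj
      rcases Nat.lt_or_ge j m with h2 | h2
      · change Leg (sg (dir s j) f) (if j ≤ m then τ j else N + 1)
          (if j + 1 ≤ m then τ (j + 1) else N + 1)
        rw [if_pos (by omega), if_pos (by omega)]
        exact T.leg j (by omega)
      · obtain rfl : j = m := by omega
        change Leg F (if j ≤ j then τ j else N + 1) (if j + 1 ≤ j then τ (j + 1) else N + 1)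
        rw [if_pos le_rfl, if_neg (by omega)]
        have hhi : ∀ t, τ j ≤ t → t ≤ N → F t ≤ F (τ (j + 1)) := by
          intro t ht ht'
          rcases le_total t (τ (j + 1)) with h3 | h3
          · exact hl.high t ht h3
          · exact (htail t h3 ht').1
        refine ⟨by omega, by linarith, ?_, ?_, ?_⟩
        · intro t ht ht'
          rcases Nat.lt_or_ge N t with h4 | h4
          · obtain rfl : t = N + 1 := by omega
            linarith
          · rcases le_total t (τ (j + 1)) with h3 | h3
            · exact hl.low t ht h3
            · have := (htail t h3 h4).2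
              linarith
        · intro t ht ht'
          rcases Nat.lt_or_ge N t with h4 | h4
          · obtain rfl : t = N + 1 := by omega
            exact le_rfl
          · have := hhi t ht h4
            linarith
        · intro r t hr hrt ht
          rcases Nat.lt_or_ge N t with h4 | h4
          · obtain rfl : t = N + 1 := by omega
            rcases Nat.lt_or_ge N r with h5 | h5
            · obtain rfl : r = N + 1 := by omega
              linarith
            · have := hhi r hr h5
              linarith
          · rcases le_total t (τ (j + 1)) with h3 | h3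
            · exact hl.nodrop r t hr hrt h3
            · have h6 := (htail t h3 h4).2
              have h7 := hhi r hr (by omega)
              linarith
    · intro t ht
      change t ≤ (if 0 ≤ m then τ 0 else N + 1) at ht
      rw [if_pos (Nat.zero_le m)] at ht
      change sg s f (if 0 ≤ m then τ 0 else N + 1) ≤ sg s f t ∧
        sg s f t ≤ sg s f (if 0 ≤ m then τ 0 else N + 1) + 2
      rw [if_pos (Nat.zero_le m)]
      exact T.head t ht
    · intro t ht ht'
      change (if m + 1 ≤ m then τ (m + 1) else N + 1) ≤ t at ht
      rw [if_neg (by omega)] at ht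
      obtain rfl : t = N + 1 := by omega
      change F (N + 1) ≤ F (if m + 1 ≤ m then τ (m + 1) else N + 1) ∧
        F (if m + 1 ≤ m then τ (m + 1) else N + 1) - 2 ≤ F (N + 1)
      rw [if_neg (by omega)]
      constructor <;> linarith
  · rcases lt_or_ge (F (N + 1)) (F (τ (m + 1)) - 2) with h2 | h2
    · -- a new tip
      have e1 : sg (dir s (m + 1)) f = fun t => - F t := sg_not (dir s m) f
      refine ⟨m + 2, fun i => if i ≤ m + 1 then τ i else N + 1, by omega, ?_, ?_, ?_, ?_⟩
      · change (if m + 2 ≤ m + 1 then τ (m + 2) else N + 1) ≤ N + 1
        rw [if_neg (by omega)]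
      · intro j hj
        rcases Nat.lt_or_ge j (m + 1) with h3 | h3
        · change Leg (sg (dir s j) f) (if j ≤ m + 1 then τ j else N + 1)
            (if j + 1 ≤ m + 1 then τ (j + 1) else N + 1)
          rw [if_pos (by omega), if_pos (by omega)]
          exact T.leg j (by omega)
        · obtain rfl : j = m + 1 := by omega
          change Leg (sg (dir s (m + 1)) f) (if m + 1 ≤ m + 1 then τ (m + 1) else N + 1)
            (if m + 1 + 1 ≤ m + 1 then τ (m + 1 + 1) else N + 1)
          rw [if_pos le_rfl, if_neg (by omega), e1]
          refine ⟨by omega, by linarith, ?_, ?_, ?_⟩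
          · intro t ht ht'
            rcases Nat.lt_or_ge N t with h4 | h4
            · obtain rfl : t = N + 1 := by omega
              linarith
            · have := (htail t ht h4).1
              linarith
          · intro t ht ht'
            rcases Nat.lt_or_ge N t with h4 | h4
            · obtain rfl : t = N + 1 := by omega
              exact le_rfl
            · have := (htail t ht h4).2
              linarith
          · intro r t hr hrt ht
            rcases Nat.lt_or_ge N t with h4 | h4
            · obtain rfl : t = N + 1 := by omega
              rcases Nat.lt_or_ge N r with h5 | h5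
              · obtain rfl : r = N + 1 := by omega
                linarith
              · have := (htail r hr h5).2
                linarith
            · have h6 := (htail t (hr.trans hrt) h4).1
              have h7 := (htail r hr (hrt.trans h4)).2
              linarith
      · intro t ht
        change t ≤ (if 0 ≤ m + 1 then τ 0 else N + 1) at ht
        rw [if_pos (Nat.zero_le _)] at ht
        change sg s f (if 0 ≤ m + 1 then τ 0 else N + 1) ≤ sg s f t ∧
          sg s f t ≤ sg s f (if 0 ≤ m + 1 then τ 0 else N + 1) + 2
        rw [if_pos (Nat.zero_le _)]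
        exact T.head t ht
      · intro t ht ht'
        change (if m + 2 ≤ m + 1 then τ (m + 2) else N + 1) ≤ t at ht
        rw [if_neg (by omega)] at ht
        obtain rfl : t = N + 1 := by omega
        change sg (dir s (m + 1)) f (N + 1) ≤
          sg (dir s (m + 1)) f (if m + 2 ≤ m + 1 then τ (m + 2) else N + 1) ∧
          sg (dir s (m + 1)) f (if m + 2 ≤ m + 1 then τ (m + 2) else N + 1) - 2 ≤
          sg (dir s (m + 1)) f (N + 1)
        rw [if_neg (by omega)]
        constructor <;> linarith
    · -- the tail is extended
      refine ⟨m + 1, τ, Nat.succ_pos m, by omega, T.leg, T.head, ?_⟩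
      intro t ht ht'
      change F t ≤ F (τ (m + 1)) ∧ F (τ (m + 1)) - 2 ≤ F t
      rcases Nat.lt_or_ge N t with h4 | h4
      · obtain rfl : t = N + 1 := by omega
        exact ⟨h1, h2⟩
      · exact htail t ht h4

/-- Existence of the tips. -/
theorem tips_exists (f : ℕ → ℝ) (N : ℕ) :
    (∀ a ≤ N, ∀ b ≤ N, f a - f b ≤ 2) ∨ ∃ m s τ, Tips f N m s τ := by
  induction N with
  | zero =>
    left
    intro a ha b hb
    obtain rfl : a = 0 := by omega
    obtain rfl : b = 0 := by omega
    linarith
  | succ N ih =>
    rcases ih with h | ⟨m, s, τ, T⟩
    · by_cases h1 : ∃ b ≤ N, 2 < f (N + 1) - f b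
      · obtain ⟨b, hb, hv⟩ := h1
        right
        obtain ⟨τ, T⟩ := tipsEx_start (f := f) (N := N) true h hb hv
        exact ⟨1, true, τ, T⟩
      · by_cases h2 : ∃ b ≤ N, 2 < f b - f (N + 1)
        · obtain ⟨b, hb, hv⟩ := h2
          right
          obtain ⟨τ, T⟩ := tipsEx_start (f := f) (N := N) false
            (fun a ha b hb => by
              change (- f a) - (- f b) ≤ 2
              have := h b hb a ha
              linarith) hb
            (by
              change 2 < (- f (N + 1)) - (- f b)
              linarith)
          exact ⟨1, false, τ, T⟩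
        · left
          push Not at h1 h2
          intro a ha b hb
          rcases Nat.lt_or_ge N a with h3 | h3
          · obtain rfl : a = N + 1 := by omega
            rcases Nat.lt_or_ge N b with h4 | h4
            · obtain rfl : b = N + 1 := by omega
              linarith
            · exact h1 b h4
          · rcases Nat.lt_or_ge N b with h4 | h4
            · obtain rfl : b = N + 1 := by omega
              exact h2 a h3
            · exact h a h3 b h4
    · right
      have hm := T.pos
      obtain ⟨m', rfl⟩ : ∃ m', m = m' + 1 := ⟨m - 1, by omega⟩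
      obtain ⟨m'', τ', T'⟩ := tipsEx_step T
      exact ⟨m'', s, τ', T'⟩

end Pool.Agent.Lib.MP_04143b_an
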