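import Pool.Agent.Lib.MP_04143b_an.Mg.G007

namespace Pool.Agent.Lib.MP_04143b_an

private theorem TipsZ_sub {a b N : ℕ} (h : a ≤ b) : (iv b N).Sublist (iv a N) := by
  by_cases hb : b ≤ N
  · rcases Nat.eq_or_lt_of_le h with h1 | h1
    · rw [h1]
    · have h2 := iv_append (show a ≤ (b - 1) + 1 by omega) (show b - 1 ≤ N by omega)
      have h3 : b - 1 + 1 = b := by omega
      rw [h3] at h2
      rw [← h2]
      exact List.sublist_append_right _ _
  · rw [iv_eq_nil (by omega)]
    exact List.nil_sublist _

private theorem TipsZ_leN {f : ℕ → ℝ} {N m : ℕ} {s : Bool} {τ : ℕ → ℕ} (T : Tips f N m s τ)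
    (n : ℕ) : ∀ j, j + n = m → τ j ≤ N := by
  induction n with
  | zero =>
    intro j hj
    rw [Nat.add_zero] at hj
    rw [hj]
    exact T.last
  | succ n ih =>
    intro j hj
    have h1 := ih (j + 1) (by omega)
    have h2 := (T.leg j (by omega)).lt
    omega

/-- The tips form a zigzag. -/
theorem tips_le {f : ℕ → ℝ} {N m : ℕ} {s : Bool} {τ : ℕ → ℕ} (T : Tips f N m s τ) {k : ℕ}
    (h : ZLe f (iv 0 N) k) : m + 1 ≤ k := by
  have key : ∀ n j, j + n = m → ∃ c : List ℕ, (τ j :: c).Sublist (iv (τ j) N) ∧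
      Zig f (!(dir s j)) (τ j :: c) ∧ c.length = n := by
    intro n
    induction n with
    | zero =>
      intro j hj
      refine ⟨[], ?_, trivial, rfl⟩
      rw [iv_cons (TipsZ_leN T 0 j hj)]
      exact List.Sublist.cons_cons _ (List.nil_sublist _)
    | succ n ih =>
      intro j hj
      obtain ⟨c, h1, h2, h3⟩ := ih (j + 1) (by omega)
      have hleg := T.leg j (by omega)
      refine ⟨τ (j + 1) :: c, ?_, ?_, by simp [h3]⟩
      · rw [iv_cons (TipsZ_leN T (n + 1) j hj)]
        refine List.Sublist.cons_cons _ (h1.trans (TipsZ_sub ?_))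
        have := hleg.lt
        omega
      · have hgap := hleg.gap
        have hd : dir s (j + 1) = !(dir s j) := rfl
        rw [hd] at h2
        cases hs : dir s j with
        | true =>
          rw [hs] at hgap h2
          simp only [sg, if_true] at hgap
          exact ⟨hgap, by simpa using h2⟩
        | false =>
          rw [hs] at hgap h2
          simp only [sg, Bool.false_eq_true, if_false] at hgap
          refine ⟨by linarith, by simpa using h2⟩
  obtain ⟨c, h1, h2, h3⟩ := key m 0 (by omega)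
  have h4 := h _ _ (h1.trans (TipsZ_sub (Nat.zero_le _))) h2
  rw [List.length_cons, h3] at h4
  exact h4

private theorem TipsZ_piece {f : ℕ → ℝ} {N m : ℕ} {s : Bool} {τ : ℕ → ℕ} (T : Tips f N m s τ)
    {j : ℕ} (hj : j < m) : NoDrop (sg (dir s j) f)
      (iv (if j = 0 then 0 else τ j + 1) (if j + 1 = m then N else τ (j + 1))) := by
  have hleg := T.leg j hj
  set F := sg (dir s j) f with hF
  have hp := iv_pairwise (if j = 0 then 0 else τ j + 1) (if j + 1 = m then N else τ (j + 1))
  refine List.Pairwise.imp_of_mem ?_ hp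
  intro a b ha hb hab
  rw [mem_iv] at ha hb
  -- head
  have hhead : ∀ t, (if j = 0 then 0 else τ j + 1) ≤ t → t < τ j →
      F (τ j) ≤ F t ∧ F t ≤ F (τ j) + 2 := by
    intro t h1 h2
    by_cases h0 : j = 0
    · subst h0
      exact T.head t h2.le
    · rw [if_neg h0] at h1
      omega
  have htail : ∀ t, t ≤ (if j + 1 = m then N else τ (j + 1)) → τ (j + 1) < t →
      F t ≤ F (τ (j + 1)) ∧ F (τ (j + 1)) - 2 ≤ F t := by
    intro t h1 h2
    by_cases h0 : j + 1 = m
    · rw [if_pos h0] at h1
      have h3 := T.tail t (by rw [← h0]; exact h2.le) h1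
      have h4 : m - 1 = j := by omega
      rw [h4, ← h0] at h3
      exact h3
    · rw [if_neg h0] at h1
      omega
  have hgap := hleg.gap
  rcases Nat.lt_or_ge a (τ j) with h1 | h1
  · have h2 := hhead a ha.1 h1
    rcases Nat.lt_or_ge b (τ j) with h3 | h3
    · have h4 := hhead b hb.1 h3
      linarith
    · rcases Nat.lt_or_ge (τ (j + 1)) b with h5 | h5
      · have h6 := htail b hb.2 h5
        linarith
      · have h6 := hleg.low b h3 h5
        linarith
  · rcases Nat.lt_or_ge (τ (j + 1)) a with h2 | h2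
    · have h3 := htail a ha.2 h2
      have h4 := htail b hb.2 (by omega)
      linarith
    · rcases Nat.lt_or_ge (τ (j + 1)) b with h5 | h5
      · have h6 := htail b hb.2 h5
        have h7 := hleg.high a h1 h2
        linarith
      · exact hleg.nodrop a b h1 hab.le h5

/-- There is no longer zigzag. -/
theorem tips_zle {f : ℕ → ℝ} {N m : ℕ} {s : Bool} {τ : ℕ → ℕ} (T : Tips f N m s τ) :
    ZLe f (iv 0 N) (m + 1) := by
  have hcons : ∀ (j : ℕ) (P : List ℕ) (S : List (List ℕ)), NoDrop (sg (dir s j) f) P →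
      Alts f (dir s (j + 1)) S → Alts f (dir s j) (P :: S) := by
    intro j P S hP hS
    have hd : dir s (j + 1) = !(dir s j) := rfl
    rw [hd] at hS
    cases hs : dir s j with
    | true =>
      rw [hs] at hP hS
      exact ⟨hP, hS⟩
    | false =>
      rw [hs] at hP hS
      exact ⟨noDrop_neg.1 hP, hS⟩
  have key : ∀ n j, j + n + 1 = m → ∃ S : List (List ℕ), S.length = n + 1 ∧
      S.flatten = iv (if j = 0 then 0 else τ j + 1) N ∧ Alts f (dir s j) S := by
    intro n
    induction n with
    | zero =>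
      intro j hj
      refine ⟨[iv (if j = 0 then 0 else τ j + 1) N], rfl, by simp, ?_⟩
      have h1 := TipsZ_piece T (j := j) (by omega)
      rw [if_pos (show j + 1 = m by omega)] at h1
      exact hcons j _ _ h1 trivial
    | succ n ih =>
      intro j hj
      obtain ⟨S, h1, h2, h3⟩ := ih (j + 1) (by omega)
      have h4 := TipsZ_piece T (j := j) (by omega)
      rw [if_neg (show j + 1 ≠ m by omega)] at h4
      refine ⟨_ :: S, by simp [h1], ?_, hcons j _ _ h4 h3⟩
      rw [List.flatten_cons, h2, if_neg (Nat.succ_ne_zero j)]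
      apply iv_append
      · have := (T.leg j (by omega)).lt
        split_ifs
        · omega
        · omega
      · exact TipsZ_leN T (n + 1) (j + 1) (by omega)
  obtain ⟨S, h1, h2, h3⟩ := key (m - 1) 0 (by have := T.pos; omega)
  have h4 := zle_alts h3
  rw [h2, h1, if_pos rfl] at h4
  have h5 : m - 1 + 1 = m := by have := T.pos; omega
  rw [h5] at h4
  exact h4

theorem zle_one_of_osc {f : ℕ → ℝ} {N : ℕ} (h : ∀ a ≤ N, ∀ b ≤ N, f a - f b ≤ 2) :
    ZLe f (iv 0 N) 1 := by
  intro s c hc hz
  rcases c with _ | ⟨a, _ | ⟨b, l⟩⟩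
  · simp
  · simp
  · exfalso
    have ha : a ≤ N := (mem_iv.1 (hc.subset (by simp : a ∈ a :: b :: l))).2
    have hb : b ≤ N := (mem_iv.1 (hc.subset (by simp : b ∈ a :: b :: l))).2
    cases s with
    | true =>
      have := hz.1
      linarith [h a ha b hb]
    | false =>
      have := hz.1
      linarith [h b hb a ha]

end Pool.Agent.Lib.MP_04143b_an
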