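import Pool.Agent.Lib.MP_04143b_an.Sel
import Pool.Agent.Lib.MP_04143b_an.LinSec

/-! # From a route to a curve -/

open Set

namespace Pool.Agent.Lib.MP_04143b_an

private theorem UpWalk_conv {a b c u : ℝ} (h0 : 0 ≤ u) (h1 : u ≤ 1) (ha : |a - c| ≤ 1)
    (hb : |b - c| ≤ 1) : |(1 - u) * a + u * b - c| ≤ 1 := by
  have h2 : (1 - u) * a + u * b - c = (1 - u) * (a - c) + u * (b - c) := by ring
  rw [h2]
  rw [abs_le] at ha hb ⊢
  constructor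
  · nlinarith [mul_nonneg h0 (by linarith : 0 ≤ b - c + 1),
      mul_nonneg (sub_nonneg.2 h1) (by linarith : 0 ≤ a - c + 1)]
  · nlinarith [mul_nonneg h0 (by linarith : 0 ≤ 1 - (b - c)),
      mul_nonneg (sub_nonneg.2 h1) (by linarith : 0 ≤ 1 - (a - c))]

/-- From a route to a curve. -/
theorem walk {x y : ℕ → ℝ} {N k : ℕ} (hN : 1 ≤ N) {l : List ℕ} (hl : ∀ t, t ∈ l ↔ t ≤ N)
    (hadj : Adj x y l) (hx : ZLe x l k) (hy : ZLe y l k) :
    ∃ φ ψ : ℝ → ℝ, Continuous φ ∧ Continuous ψ ∧ HasSections k φ ∧ HasSections k ψ ∧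
      (∀ i ≤ N, ∃ t ∈ Icc (0 : ℝ) 1, |φ t - x i| ≤ 1 ∧ |ψ t - y i| ≤ 1) ∧
      (∀ t ∈ Icc (0 : ℝ) 1, ∃ i ≤ N, |φ t - x i| ≤ 1 ∧ |ψ t - y i| ≤ 1) := by
  have h0 : 0 ∈ l := (hl 0).2 (Nat.zero_le _)
  have h1 : 1 ∈ l := (hl 1).2 hN
  have hne : l ≠ [] := List.ne_nil_of_mem h0
  have hlen : 2 ≤ l.length := by
    rcases l with _ | ⟨a, _ | ⟨b, l⟩⟩
    · simp at h0
    · simp only [List.mem_singleton] at h0 h1
      omega
    · simp
  obtain ⟨M, hM⟩ : ∃ M, M = l.length - 1 := ⟨_, rfl⟩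
  have hM1 : 1 ≤ M := by omega
  have hM0 : (0 : ℝ) < M := by exact_mod_cast hM1
  obtain ⟨X, hX1, hX2, hX3⟩ := select hne (hadj.imp fun _ _ h => h.1) hx
  obtain ⟨Y, hY1, hY2, hY3⟩ := select hne (hadj.imp fun _ _ h => h.2) hy
  rw [← hM] at hX3 hY3
  refine ⟨lin X M, lin Y M, lin_continuous X M, lin_continuous Y M, lin_hasSections hM1 hX3,
    lin_hasSections hM1 hY3, ?_, ?_⟩
  · intro i hi
    obtain ⟨j, hj, hji⟩ := List.mem_iff_getElem.1 ((hl i).2 hi)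
    have hjM : j ≤ M := by omega
    have hjM' : (j : ℝ) ≤ M := by exact_mod_cast hjM
    refine ⟨(j : ℝ) / M, ⟨by positivity, (div_le_one hM0).2 hjM'⟩, ?_, ?_⟩
    · rw [lin_at X hM1 hjM, ← hji]
      exact hX1 j hj
    · rw [lin_at Y hM1 hjM, ← hji]
      exact hY1 j hj
  · intro t ht
    obtain ⟨i, hi, u, hu, -, hlin⟩ := lin_piece hM1 ht
    have hi1 : i + 1 < l.length := by omega
    have hi0 : i < l.length := by omega
    refine ⟨l[i], (hl _).1 (List.getElem_mem hi0), ?_, ?_⟩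
    · rw [hlin X]
      exact UpWalk_conv hu.1 hu.2 (hX1 i hi0) (hX2 i hi1)
    · rw [hlin Y]
      exact UpWalk_conv hu.1 hu.2 (hY1 i hi0) (hY2 i hi1)

end Pool.Agent.Lib.MP_04143b_an
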