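import Pool.Agent.Lib.MP_04143b_an.Mg.G006

namespace Pool.Agent.Lib.MP_04143b_an

open Set

private theorem Sel_dir_not (s : Bool) (n : ℕ) : dir (!s) n = !(dir s n) := by
  induction n with
  | zero => rfl
  | succ n ih => show (!(dir (!s) n)) = !(!(dir s n)); rw [ih]

private theorem Sel_sg_not (s : Bool) (f : ℕ → ℝ) (t : ℕ) : sg (!s) f t = - sg s f t := by
  cases s <;> simp [sg]

private theorem Sel_zig_cons (f : ℕ → ℝ) (s : Bool) (a b : ℕ) (l : List ℕ) :
    Zig f s (a :: b :: l) ↔ 2 < sg s f a - sg s f b ∧ Zig f (!s) (b :: l) := by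
  cases s
  · simp only [Zig, sg, Bool.false_eq_true, if_false, Bool.not_false]
    rw [show (- f a - - f b) = f b - f a by ring]
  · simp [Zig, sg]

private theorem Sel_zig_one (f : ℕ → ℝ) (s : Bool) (a : ℕ) : Zig f s [a] := by
  cases s <;> trivial

private theorem Sel_zig_append (f : ℕ → ℝ) (y z : ℕ) : ∀ (c : List ℕ) (s : Bool),
    Zig f s (c ++ [y, z]) ↔ Zig f s (c ++ [y]) ∧
      2 < sg (dir s c.length) f y - sg (dir s c.length) f z
  | [], s => by
    rw [List.nil_append, List.nil_append, Sel_zig_cons]
    constructor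
    · rintro ⟨h, _⟩
      exact ⟨Sel_zig_one _ _ _, h⟩
    · rintro ⟨_, h⟩
      exact ⟨h, Sel_zig_one _ _ _⟩
  | [a], s => by
    rw [List.singleton_append, List.singleton_append, Sel_zig_cons, Sel_zig_cons, Sel_zig_cons]
    constructor
    · rintro ⟨h, h', _⟩
      exact ⟨⟨h, Sel_zig_one _ _ _⟩, h'⟩
    · rintro ⟨⟨h, _⟩, h'⟩
      exact ⟨h, h', Sel_zig_one _ _ _⟩
  | a :: b :: c, s => by
    rw [List.cons_append, List.cons_append, List.cons_append, List.cons_append, Sel_zig_cons,
      Sel_zig_cons]
    have ih := Sel_zig_append f y z (b :: c) (!s)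
    rw [List.cons_append, List.cons_append, Sel_dir_not] at ih
    rw [ih, and_assoc]
    rfl

private theorem Sel_zig_last (f : ℕ → ℝ) (c : List ℕ) (z z' : ℕ) (s : Bool)
    (h : Zig f s (c ++ [z])) (hz : sg (dir s c.length) f z ≤ sg (dir s c.length) f z') :
    Zig f s (c ++ [z']) := by
  rcases List.eq_nil_or_concat c with rfl | ⟨c', y, rfl⟩
  · exact Sel_zig_one _ _ _
  · rw [List.concat_eq_append, List.append_assoc, List.singleton_append, Sel_zig_append] at h ⊢
    refine ⟨h.1, ?_⟩
    have e : dir s (c'.concat y).length = !(dir s c'.length) := by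
      rw [List.length_concat]
      rfl
    rw [e, Sel_sg_not, Sel_sg_not] at hz
    linarith [h.2]

private theorem Sel_sec_ext {X : ℕ → ℝ} {m n p : ℕ} (h : Sec X m p) (hmn : m ≤ n)
    (hX : MonotoneOn X (Icc m n) ∨ AntitoneOn X (Icc m n)) : Sec X n (p + 1) := by
  obtain ⟨b, h0, hp, hb, hl⟩ := h
  refine ⟨fun l => if l ≤ p then b l else n, ?_, ?_, ?_, ?_⟩
  · simpa using h0
  · simp
  · intro l l' hll
    simp only
    by_cases h1 : l ≤ p
    · by_cases h2 : l' ≤ p
      · rw [if_pos h1, if_pos h2]
        exact hb hll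
      · rw [if_pos h1, if_neg h2]
        exact (hb h1).trans (hp.le.trans hmn)
    · have h2 : ¬ l' ≤ p := fun h => h1 (hll.trans h)
      rw [if_neg h1, if_neg h2]
  · intro l hlp
    beta_reduce
    rcases Nat.lt_or_ge l p with h1 | h1
    · rw [if_pos h1.le, if_pos (by omega)]
      exact hl l h1
    · have h2 : l = p := by omega
      subst h2
      rw [if_pos le_rfl, if_neg (by omega), hp]
      exact hX

private theorem Sel_sec_mono {X : ℕ → ℝ} {n p : ℕ} (h : Sec X n p) (k : ℕ) :
    Sec X n (p + k) := by
  induction k with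
  | zero => exact h
  | succ k ih =>
    refine Sel_sec_ext ih le_rfl (Or.inl ?_)
    intro a ha b hb _
    have h1 : a = b := by
      have := ha.1; have := ha.2; have := hb.1; have := hb.2; omega
    rw [h1]

private theorem Sel_sec_zero (X : ℕ → ℝ) : Sec X 0 0 :=
  ⟨fun _ => 0, rfl, rfl, monotone_const, fun l hl => absurd hl (Nat.not_lt_zero l)⟩

private theorem Sel_mono_or {X : ℕ → ℝ} {t : Bool} {S : Set ℕ} (h : MonotoneOn (sg t X) S) :
    MonotoneOn X S ∨ AntitoneOn X S := by
  cases t
  · right
    intro a ha b hb hab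
    have := h ha hb hab
    simp only [sg, Bool.false_eq_true, if_false] at this
    linarith
  · left
    intro a ha b hb hab
    have := h ha hb hab
    simpa [sg] using this

private theorem Sel_mono_step {Y : ℕ → ℝ} {m n : ℕ} (h : MonotoneOn Y (Icc m n)) (hmn : m ≤ n)
    (hY : Y n ≤ Y (n + 1)) : MonotoneOn Y (Icc m (n + 1)) := by
  intro a ha b hb hab
  rcases Nat.lt_or_ge n b with h1 | h1
  · have hb' : b = n + 1 := by
      have := hb.2; omega
    subst hb'
    rcases Nat.lt_or_ge n a with h2 | h2
    · have : a = n + 1 := by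
        have := ha.2; omega
      rw [this]
    · exact (h ⟨ha.1, h2⟩ ⟨hmn, le_rfl⟩ h2).trans hY
  · exact h ⟨ha.1, hab.trans h1⟩ ⟨hb.1, h1⟩ hab

/-- lazy selection -/
private noncomputable def Sel_X (g : ℕ → ℝ) : ℕ → ℝ
  | 0 => g 0
  | n + 1 => max (g (n + 1) - 1) (min (Sel_X g n) (g (n + 1) + 1))

private theorem Sel_box (g : ℕ → ℝ) (n : ℕ) : |Sel_X g n - g n| ≤ 1 := by
  cases n with
  | zero => simp [Sel_X]
  | succ n =>
    rw [abs_le]
    constructor
    · have : g (n + 1) - 1 ≤ Sel_X g (n + 1) := le_max_left _ _
      linarith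
    · have : Sel_X g (n + 1) ≤ g (n + 1) + 1 := by
        apply max_le
        · linarith
        · exact min_le_right _ _
      linarith

private theorem Sel_cases (g : ℕ → ℝ) (n : ℕ) : Sel_X g (n + 1) = Sel_X g n ∨
    ∃ t : Bool, sg t (Sel_X g) n < sg t (Sel_X g) (n + 1) ∧
      sg t (Sel_X g) (n + 1) = sg t g (n + 1) - 1 := by
  rcases lt_or_ge (Sel_X g n) (g (n + 1) - 1) with h | h
  · right
    have e : Sel_X g (n + 1) = g (n + 1) - 1 := by
      show max (g (n + 1) - 1) (min (Sel_X g n) (g (n + 1) + 1)) = _
      rw [min_eq_left (by linarith), max_eq_left h.le]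
    refine ⟨true, ?_, ?_⟩
    · simp only [sg, if_true]
      linarith
    · simp only [sg, if_true]
      exact e
  · rcases le_or_gt (Sel_X g n) (g (n + 1) + 1) with h' | h'
    · left
      show max (g (n + 1) - 1) (min (Sel_X g n) (g (n + 1) + 1)) = _
      rw [min_eq_left h', max_eq_right h]
    · right
      have e : Sel_X g (n + 1) = g (n + 1) + 1 := by
        show max (g (n + 1) - 1) (min (Sel_X g n) (g (n + 1) + 1)) = _
        rw [min_eq_right h'.le, max_eq_right (by linarith)]
      refine ⟨false, ?_, ?_⟩
      · simp only [sg, Bool.false_eq_true, if_false]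
        linarith
      · simp only [sg, Bool.false_eq_true, if_false]
        linarith

private theorem Sel_box2 (g : ℕ → ℝ) (n : ℕ) (h : |g n - g (n + 1)| ≤ 2) :
    |Sel_X g (n + 1) - g n| ≤ 1 := by
  have h1 := Sel_box g n
  have h2 := Sel_box g (n + 1)
  rcases Sel_cases g n with h3 | ⟨t, h3, h4⟩
  · rw [h3]
    exact h1
  · rw [abs_le] at h h1 h2 ⊢
    cases t
    · simp only [sg, Bool.false_eq_true, if_false] at h3 h4
      constructor <;> linarith
    · simp only [sg, if_true] at h3 h4
      constructor <;> linarith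

/-- the invariant -/
private theorem Sel_inv (f : ℕ → ℝ) (r : List ℕ) (n : ℕ) (hn : n < r.length) :
    (∀ i ≤ n, Sel_X (fun i => f (r.getD i 0)) i = Sel_X (fun i => f (r.getD i 0)) 0) ∨
    ∃ (s : Bool) (c : List ℕ) (z m : ℕ), (c ++ [z]).Sublist (r.take (n + 1)) ∧
      Zig f s (c ++ [z]) ∧
      sg (dir s c.length) (Sel_X (fun i => f (r.getD i 0))) n =
        sg (dir s c.length) f z - 1 ∧
      Sec (Sel_X (fun i => f (r.getD i 0))) m c.length ∧ m ≤ n ∧
      MonotoneOn (sg (dir s c.length) (Sel_X (fun i => f (r.getD i 0)))) (Icc m n) := by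
  induction n with
  | zero =>
    left
    intro i hi
    rw [Nat.le_zero.1 hi]
  | succ n ih =>
    set X := Sel_X (fun i => f (r.getD i 0)) with hX
    have ih := ih (by omega)
    have htake : r.take (n + 1 + 1) = r.take (n + 1) ++ [r[n + 1]] := by
      rw [List.take_succ_eq_append_getElem hn]
    rcases Sel_cases (fun i => f (r.getD i 0)) n with h3 | ⟨t, h3, h4⟩
    · rw [← hX] at h3
      rcases ih with h | ⟨s, c, z, m, h1, h2, h5, h6, h7, h8⟩
      · left
        intro i hi
        rcases Nat.lt_or_ge n i with h9 | h9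
        · rw [show i = n + 1 by omega, h3]
          exact h n le_rfl
        · exact h i h9
      · right
        have e : sg (dir s c.length) X (n + 1) = sg (dir s c.length) X n := by
          unfold sg
          rw [h3]
        refine ⟨s, c, z, m, ?_, h2, ?_, h6, by omega, ?_⟩
        · rw [htake]
          exact h1.trans (List.sublist_append_left _ _)
        · rw [e]
          exact h5
        · exact Sel_mono_step h8 h7 e.symm.le
    · rw [← hX] at h3 h4
      have hg : sg t (fun i => f (r.getD i 0)) (n + 1) = sg t f r[n + 1] := by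
        unfold sg
        beta_reduce
        rw [List.getD_eq_getElem _ _ hn]
      rw [hg] at h4
      right
      rcases ih with h | ⟨s, c, z, m, h1, h2, h5, h6, h7, h8⟩
      · refine ⟨t, [], r[n + 1], 0, ?_, Sel_zig_one _ _ _, h4, Sel_sec_zero X, Nat.zero_le _, ?_⟩
        · rw [htake, List.nil_append]
          exact List.sublist_append_right _ _
        · refine Sel_mono_step ?_ (Nat.zero_le _) h3.le
          intro a ha b hb _
          have e : ∀ i ≤ n, sg t X i = sg t X 0 := by
            intro i hi
            unfold sg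
            rw [h i hi]
          show sg t X a ≤ sg t X b
          rw [e a ha.2, e b hb.2]
      · by_cases hd : dir s c.length = t
        · refine ⟨s, c, r[n + 1], m, ?_, ?_, ?_, h6, by omega, ?_⟩
          · rw [htake]
            exact ((List.sublist_append_left c [z]).trans h1).append (List.Sublist.refl _)
          · apply Sel_zig_last f c z _ s h2
            rw [hd] at h5 ⊢
            linarith
          · rw [hd]
            exact h4
          · rw [hd] at h8 ⊢
            exact Sel_mono_step h8 h7 h3.le
        · have hd' : dir s c.length = !t := by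
            cases h9 : dir s c.length <;> cases t <;> simp_all
          have hlen : dir s (c ++ [z]).length = t := by
            rw [List.length_append]
            show (!(dir s c.length)) = t
            rw [hd', Bool.not_not]
          refine ⟨s, c ++ [z], r[n + 1], n, ?_, ?_, ?_, ?_, by omega, ?_⟩
          · rw [htake]
            exact h1.append (List.Sublist.refl _)
          · rw [List.append_assoc, List.singleton_append, Sel_zig_append]
            refine ⟨h2, ?_⟩
            rw [hd', Sel_sg_not] at h5
            rw [hd', Sel_sg_not, Sel_sg_not]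
            rw [Sel_sg_not] at h5
            linarith
          · rw [hlen]
            exact h4
          · have := Sel_sec_ext h6 h7 (Sel_mono_or h8)
            rwa [List.length_append]
          · rw [hlen]
            refine Sel_mono_step ?_ le_rfl h3.le
            intro a ha b hb _
            have h9 : a = b := by
              have := ha.1; have := ha.2; have := hb.1; have := hb.2; omega
            rw [h9]

/-- Lazy selection along a list of labels. -/
theorem select {f : ℕ → ℝ} {r : List ℕ} {k : ℕ} (hr : r ≠ [])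
    (hadj : r.IsChain (fun a b => |f a - f b| ≤ 2)) (hz : ZLe f r k) :
    ∃ X : ℕ → ℝ, (∀ i (h : i < r.length), |X i - f r[i]| ≤ 1) ∧
      (∀ i (h : i + 1 < r.length), |X (i + 1) - f r[i]| ≤ 1) ∧ Sec X (r.length - 1) k := by
  have hlen : 0 < r.length := List.length_pos_of_ne_nil hr
  have hg : ∀ i (h : i < r.length), (fun i => f (r.getD i 0)) i = f r[i] := by
    intro i h
    simp only
    rw [List.getD_eq_getElem _ _ h]
  refine ⟨Sel_X (fun i => f (r.getD i 0)), ?_, ?_, ?_⟩
  · intro i h
    rw [← hg i h]
    exact Sel_box _ i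
  · intro i h
    rw [← hg i (by omega)]
    apply Sel_box2
    have e1 := hg i (by omega)
    have e2 := hg (i + 1) h
    beta_reduce at e1 e2 ⊢
    rw [e1, e2]
    exact List.isChain_iff_getElem.1 hadj i h
  · rcases Sel_inv f r (r.length - 1) (by omega) with h | ⟨s, c, z, m, h1, h2, h5, h6, h7, h8⟩
    · have hk : 1 ≤ k := by
        have := hz true [r[0]] (List.singleton_sublist.2 (List.getElem_mem hlen))
          (Sel_zig_one _ _ _)
        simpa using this
      have h9 : Sec (Sel_X (fun i => f (r.getD i 0))) (r.length - 1) (0 + 1) := by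
        refine Sel_sec_ext (Sel_sec_zero _) (Nat.zero_le _) (Or.inl ?_)
        intro a ha b hb _
        rw [h a ha.2, h b hb.2]
      have h10 := Sel_sec_mono h9 (k - 1)
      rwa [show 0 + 1 + (k - 1) = k by omega] at h10
    · have hk : c.length + 1 ≤ k := by
        have h9 : (c ++ [z]).Sublist r := h1.trans (List.take_sublist _ _)
        have := hz s (c ++ [z]) h9 h2
        simpa using this
      have h9 := Sel_sec_mono (Sel_sec_ext h6 h7 (Sel_mono_or h8)) (k - (c.length + 1))
      rwa [show c.length + 1 + (k - (c.length + 1)) = k by omega] at h9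

end Pool.Agent.Lib.MP_04143b_an
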